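import Pool.Agent.W731.Tay
import Pool.Agent.Helper303.Submean

set_option autoImplicit false

open Filter Topology Asymptotics Metric
open scoped ContDiff

namespace Pool.Agent.W731

open BK Pool.Agent.Helper303

lemma vsub_affine {u : ℂ → ℝ} (hu : VSub u) {c : ℝ} (hc : 0 ≤ c) (d : ℝ) :
    VSub (fun h => c * u h + d) := by
  rcases hc.lt_or_eq with hc | hc
  · intro g k l hl
    have h1 : 0 ≤ l / c := by
      refine hu (g / c) (k / c) (l / c) ?_
      filter_upwards [hl] with h hh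
      have e1 : (g / c * h).re = (g * h).re / c := by
        rw [div_mul_eq_mul_div, Complex.div_ofReal_re]
      have e2 : (k / c * h ^ 2).re = (k * h ^ 2).re / c := by
        rw [div_mul_eq_mul_div, Complex.div_ofReal_re]
      rw [e1, e2]
      have e3 : u 0 + (g * h).re / c + (k * h ^ 2).re / c + l / c * ‖h‖ ^ 2 =
          (c * u 0 + (g * h).re + (k * h ^ 2).re + l * ‖h‖ ^ 2) / c := by
        field_simp
      rw [e3, le_div_iff₀ hc]
      linarith
    have h2 := mul_nonneg h1 hc.le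
    rwa [div_mul_cancel₀ _ hc.ne'] at h2
  · subst hc
    simp only [zero_mul, zero_add]
    exact VSub.const d

/-- Convexity of `s ↦ -1/s` on the negative axis. -/
lemma neg_inv_tangent {s s0 : ℝ} (hs : s < 0) (hs0 : s0 < 0) :
    (s0 ^ 2)⁻¹ * s + (-s0⁻¹ - (s0 ^ 2)⁻¹ * s0) ≤ -s⁻¹ := by
  have n1 : s ≠ 0 := hs.ne
  have n2 : s0 ≠ 0 := hs0.ne
  have h : -s⁻¹ - ((s0 ^ 2)⁻¹ * s + (-s0⁻¹ - (s0 ^ 2)⁻¹ * s0)) = (s - s0) ^ 2 / (-s * s0 ^ 2) := by
    field_simp
    ring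
  have h2 : 0 ≤ (s - s0) ^ 2 / (-s * s0 ^ 2) := by
    apply div_nonneg (sq_nonneg _)
    have : 0 < -s := by linarith
    positivity
  linarith

lemma vsub_neg_inv {u : ℂ → ℝ} (hu : VSub u) (hneg : ∀ᶠ h in 𝓝 0, u h < 0) :
    VSub (fun h => -(u h)⁻¹) := by
  have h0 : u 0 < 0 := hneg.self_of_nhds
  have h1 := vsub_affine hu (c := (u 0 ^ 2)⁻¹) (by positivity) (-(u 0)⁻¹ - (u 0 ^ 2)⁻¹ * u 0)
  refine h1.of_le (by ring) ?_
  filter_upwards [hneg] with h hh
  exact neg_inv_tangent hh h0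

lemma hasLap_log_norm {w b : ℂ} (hw : w ≠ 0) :
    ∃ g, HasLap (fun ζ : ℂ => Real.log ‖w + ζ * b‖) g 0 := by
  set f : ℂ → ℂ := fun ζ => Complex.log (1 + ζ * (b / w)) with hf
  have hA : AnalyticAt ℂ f 0 := by
    refine AnalyticAt.clog (by fun_prop) ?_
    simp
  have h1 := (HasTwo.of_analyticAt hA).re
  refine ⟨_, (h1.add_const (Real.log ‖w‖)).congr ?_⟩
  have hc : ContinuousAt (fun ζ : ℂ => 1 + ζ * (b / w)) 0 := by fun_prop
  have hev : ∀ᶠ ζ : ℂ in 𝓝 0, 1 + ζ * (b / w) ≠ 0 :=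
    hc.eventually_ne (by simp)
  filter_upwards [hev] with ζ hζ
  simp only [hf]
  rw [Complex.log_re, ← Real.log_mul (norm_ne_zero_iff.2 hζ) (norm_ne_zero_iff.2 hw), ← norm_mul]
  congr 2
  field_simp

variable {n : ℕ}

/-- the modulus of the fibre coordinate relative to the radius -/
noncomputable def qf (V : En n → ℝ) (x : En (n + 1)) : ℝ := ‖x 0‖ * Real.exp (V (Fin.tail x))

/-- Hartogs domain. -/
def HD (Ω : Set (En n)) (V : En n → ℝ) : Set (En (n + 1)) :=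
  {x | Fin.tail x ∈ Ω ∧ qf V x < 1}

noncomputable def uf (V : En n → ℝ) (x : En (n + 1)) : ℝ :=
  Real.log (max (qf V x) (Real.exp (-1)))

noncomputable def Ef (ρ V : En n → ℝ) (x : En (n + 1)) : ℝ :=
  max (ρ (Fin.tail x)) (-(uf V x)⁻¹)

/-- the weight `t * max (ρ - c) 0` -/
noncomputable def Vt (ρ : En n → ℝ) (t c : ℝ) (z : En n) : ℝ := t * max (ρ z - c) 0

lemma mem_HD {Ω : Set (En n)} {V : En n → ℝ} {x : En (n + 1)} :
    x ∈ HD Ω V ↔ Fin.tail x ∈ Ω ∧ qf V x < 1 := Iff.rfl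

lemma continuous_tail : Continuous (fun x : En (n + 1) => (Fin.tail x : En n)) := by
  refine continuous_pi fun i => ?_
  exact continuous_apply _

lemma qf_nonneg (V : En n → ℝ) (x : En (n + 1)) : 0 ≤ qf V x :=
  mul_nonneg (norm_nonneg _) (Real.exp_pos _).le

lemma qf_continuousOn {Ω : Set (En n)} {V : En n → ℝ} (hV : ContinuousOn V Ω) :
    ContinuousOn (qf V) {x | Fin.tail x ∈ Ω} := by
  unfold qf
  refine ContinuousOn.mul (by fun_prop) ?_
  refine Real.continuous_exp.comp_continuousOn ?_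
  exact hV.comp continuous_tail.continuousOn fun x hx => hx

lemma isOpen_tail {Ω : Set (En n)} (ho : IsOpen Ω) : IsOpen {x : En (n + 1) | Fin.tail x ∈ Ω} :=
  ho.preimage continuous_tail

lemma isOpen_HD {Ω : Set (En n)} (ho : IsOpen Ω) {V : En n → ℝ} (hV : ContinuousOn V Ω) :
    IsOpen (HD Ω V) :=
  (qf_continuousOn hV).isOpen_inter_preimage (isOpen_tail ho) isOpen_Iio

lemma max_pos' (V : En n → ℝ) (x : En (n + 1)) : 0 < max (qf V x) (Real.exp (-1)) :=
  lt_max_of_lt_right (Real.exp_pos _)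

lemma uf_continuousOn {Ω : Set (En n)} {V : En n → ℝ} (hV : ContinuousOn V Ω) :
    ContinuousOn (uf V) {x | Fin.tail x ∈ Ω} := by
  unfold uf
  refine ContinuousOn.log ?_ fun x _ => (max_pos' V x).ne'
  exact (qf_continuousOn hV).sup continuousOn_const

lemma uf_neg {V : En n → ℝ} {x : En (n + 1)} (h : qf V x < 1) : uf V x < 0 := by
  unfold uf
  refine Real.log_neg (max_pos' V x) (max_lt h ?_)
  have := Real.exp_lt_exp.2 (show (-1 : ℝ) < 0 by norm_num)
  rwa [Real.exp_zero] at this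

lemma uf_ge (V : En n → ℝ) (x : En (n + 1)) : -1 ≤ uf V x := by
  unfold uf
  rw [Real.le_log_iff_exp_le (max_pos' V x)]
  exact le_max_right _ _

lemma qf_lt_of_uf {V : En n → ℝ} {x : En (n + 1)} (h : uf V x < 0) : qf V x < 1 := by
  unfold uf at h
  have h1 := (Real.log_neg_iff (max_pos' V x)).1 h
  exact (le_max_left _ _).trans_lt h1

lemma Ef_continuousOn {Ω : Set (En n)} {ρ V : En n → ℝ} (hρ : ContinuousOn ρ Ω)
    (hV : ContinuousOn V Ω) : ContinuousOn (Ef ρ V) (HD Ω V) := by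
  unfold Ef
  refine ContinuousOn.sup ?_ ?_
  · exact hρ.comp continuous_tail.continuousOn fun x hx => hx.1
  · refine (ContinuousOn.inv₀ ((uf_continuousOn hV).mono fun x hx => hx.1) ?_).neg
    intro x hx
    exact (uf_neg hx.2).ne

lemma isCompact_sub {Ω : Set (En n)} {ρ V : En n → ℝ} (hV : ContinuousOn V Ω) (hV0 : ∀ z, 0 ≤ V z) (hex : ∀ M : ℝ, IsCompact {x ∈ Ω | ρ x ≤ M})
    (M : ℝ) : IsCompact {x ∈ HD Ω V | Ef ρ V x ≤ M} := by
  by_cases hM : M < 1
  · have : {x ∈ HD Ω V | Ef ρ V x ≤ M} = ∅ := by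
      refine Set.eq_empty_iff_forall_notMem.2 fun x hx => ?_
      have h1 : -(uf V x)⁻¹ ≤ M := (le_max_right _ _).trans hx.2
      have h2 := uf_neg hx.1.2
      have h3 := uf_ge V x
      have h4 : 1 ≤ -(uf V x)⁻¹ := by
        rw [← inv_neg]
        exact (one_le_inv₀ (by linarith)).2 (by linarith)
      linarith
    rw [this]
    exact isCompact_empty
  push Not at hM
  set C : Set (En (n + 1)) := (fun p : ℂ × En n => (Fin.cons p.1 p.2 : En (n + 1))) ''
    (closedBall (0 : ℂ) 1 ×ˢ {x ∈ Ω | ρ x ≤ M}) with hC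
  have hcont : Continuous (fun p : ℂ × En n => (Fin.cons p.1 p.2 : En (n + 1))) := by
    refine continuous_pi fun i => ?_
    refine Fin.cases ?_ (fun j => ?_) i
    · simpa using continuous_fst
    · simp only [Fin.cons_succ]
      exact (continuous_apply j).comp continuous_snd
  have hCc : IsCompact C := ((isCompact_closedBall _ _).prod (hex M)).image hcont
  have hCt : ∀ x ∈ C, Fin.tail x ∈ {x ∈ Ω | ρ x ≤ M} := by
    rintro x ⟨p, hp, rfl⟩
    simpa using hp.2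
  have hset : {x ∈ HD Ω V | Ef ρ V x ≤ M} = C ∩ uf V ⁻¹' Set.Iic (-M⁻¹) := by
    ext x
    constructor
    · rintro ⟨h1, h2⟩
      have h3 : ρ (Fin.tail x) ≤ M := (le_max_left _ _).trans h2
      have h4 : -(uf V x)⁻¹ ≤ M := (le_max_right _ _).trans h2
      have h5 := uf_neg h1.2
      refine ⟨⟨(x 0, Fin.tail x), ⟨?_, h1.1, h3⟩, Fin.cons_self_tail x⟩, ?_⟩
      · rw [mem_closedBall_zero_iff]
        have h6 : qf V x < 1 := h1.2
        unfold qf at h6
        have h7 : 1 ≤ Real.exp (V (Fin.tail x)) := Real.one_le_exp (hV0 _)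
        nlinarith [norm_nonneg (x 0)]
      · show uf V x ≤ -M⁻¹
        have h6 : (-uf V x)⁻¹ ≤ M := by rwa [inv_neg]
        have h7 : 0 < -uf V x := by linarith
        have h8 : M⁻¹ ≤ -uf V x := inv_le_of_inv_le₀ h7 h6
        linarith
    · rintro ⟨h1, h2⟩
      have h3 := hCt x h1
      have hM0 : 0 < M⁻¹ := by positivity
      have h4 : uf V x ≤ -M⁻¹ := h2
      have h5 : uf V x < 0 := by linarith
      refine ⟨⟨h3.1, qf_lt_of_uf h5⟩, max_le h3.2 ?_⟩
      rw [← inv_neg]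
      exact inv_le_of_inv_le₀ (by linarith) (by linarith)
  rw [hset]
  have hcl : IsClosed (C ∩ uf V ⁻¹' Set.Iic (-M⁻¹)) :=
    ((uf_continuousOn hV).mono fun x hx => (hCt x hx).1).preimage_isClosed_of_isClosed
      hCc.isClosed isClosed_Iic
  exact hCc.of_isClosed_subset hcl Set.inter_subset_left

lemma tail_add_smul (x b : En (n + 1)) (ζ : ℂ) :
    Fin.tail (x + ζ • b) = Fin.tail x + ζ • (Fin.tail b : En n) := rfl

/-- `ρ` is smooth and plurisubharmonic on `Ω`. -/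
lemma vsub_rho {Ω : Set (En n)} (ho : IsOpen Ω) {ρ : En n → ℝ} (hρ : ContDiffOn ℝ ∞ ρ Ω)
    (hL : ∀ x ∈ Ω, ∀ a, 0 ≤ Lv ρ x a) {z : En n} (hz : z ∈ Ω) (b : En n) :
    ∃ g l, HasLap (fun ζ : ℂ => ρ (z + ζ • b)) g l ∧ 0 ≤ l := by
  have h1 : ContDiffAt ℝ 2 ρ z := (hρ.contDiffAt (ho.mem_nhds hz)).of_le (by
    exact WithTop.coe_le_coe.2 le_top)
  obtain ⟨g, hg⟩ := hasLap_line h1 b
  exact ⟨g, _, hg, by have := hL z hz b; linarith⟩

lemma vsub_uf {Ω : Set (En n)} (ho : IsOpen Ω) {ρ : En n → ℝ} (hρ : ContDiffOn ℝ ∞ ρ Ω)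
    (hL : ∀ x ∈ Ω, ∀ a, 0 ≤ Lv ρ x a) {t c : ℝ} (ht : 0 ≤ t) {x : En (n + 1)}
    (hx : Fin.tail x ∈ Ω) (b : En (n + 1)) :
    VSub (fun ζ : ℂ => uf (Vt ρ t c) (x + ζ • b)) := by
  by_cases hq : qf (Vt ρ t c) x ≤ Real.exp (-1)
  · have h0 : uf (Vt ρ t c) x = -1 := by
      unfold uf
      rw [max_eq_right hq, Real.log_exp]
    refine (VSub.const (-1)).of_le ?_ (Eventually.of_forall fun ζ => uf_ge _ _)
    simp [h0]
  · push Not at hq
    have hV : ContinuousOn (Vt ρ t c) Ω := by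
      unfold Vt
      exact continuousOn_const.mul ((hρ.continuousOn.sub continuousOn_const).sup continuousOn_const)
    have hline : Continuous fun ζ : ℂ => x + ζ • b := by fun_prop
    have hlim : Tendsto (fun ζ : ℂ => x + ζ • b) (𝓝 0) (𝓝 x) := by
      simpa using hline.tendsto 0
    have hx0 : x 0 ≠ 0 := by
      intro h
      unfold qf at hq
      rw [h, norm_zero, zero_mul] at hq
      exact absurd hq (not_lt.2 (Real.exp_pos _).le)
    have hqc : ContinuousAt (qf (Vt ρ t c)) x :=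
      (qf_continuousOn hV).continuousAt ((isOpen_tail ho).mem_nhds hx)
    have ev1 : ∀ᶠ ζ : ℂ in 𝓝 0, Real.exp (-1) < qf (Vt ρ t c) (x + ζ • b) :=
      hlim.eventually (hqc.eventually (Ioi_mem_nhds hq))
    have ev2 : ∀ᶠ ζ : ℂ in 𝓝 0, (x + ζ • b) 0 ≠ 0 := by
      have h0c : Continuous fun y : En (n + 1) => y 0 := continuous_apply 0
      exact hlim.eventually (h0c.continuousAt.eventually_ne hx0)
    obtain ⟨g1, h1⟩ := hasLap_log_norm (b := b 0) hx0
    obtain ⟨g2, l2, h2, hl2⟩ := vsub_rho ho hρ hL hx (Fin.tail b)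
    have h3 := h1.add ((h2.add_const (-c)).const_mul t)
    have v3 := h3.vsub (by rw [zero_add]; positivity)
    have v1 := h1.vsub le_rfl
    refine (v3.sup v1).congr ?_
    filter_upwards [ev1, ev2] with ζ e1 e2
    have e3 : (x + ζ • b) 0 = x 0 + ζ * b 0 := by simp
    have e4 : uf (Vt ρ t c) (x + ζ • b) = Real.log ‖x 0 + ζ * b 0‖ +
        Vt ρ t c (Fin.tail x + ζ • Fin.tail b) := by
      unfold uf
      rw [max_eq_left e1.le]
      unfold qf
      rw [Real.log_mul (norm_ne_zero_iff.2 e2) (Real.exp_pos _).ne', Real.log_exp, e3,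
        tail_add_smul]
    rw [e4]
    unfold Vt
    rw [← sub_eq_add_neg, mul_max_of_nonneg _ _ ht, mul_zero, ← max_add_add_left, add_zero]

theorem psc_HD {Ω : Set (En n)} (ho : IsOpen Ω) {ρ : En n → ℝ} (hρ : ContDiffOn ℝ ∞ ρ Ω)
    (hex : ∀ M : ℝ, IsCompact {x ∈ Ω | ρ x ≤ M})
    (hL : ∀ x ∈ Ω, ∀ a, 0 ≤ Lv ρ x a) {t c : ℝ} (ht : 0 ≤ t) : PscC (HD Ω (Vt ρ t c)) := by
  have hV : ContinuousOn (Vt ρ t c) Ω := by
    unfold Vt
    exact continuousOn_const.mul ((hρ.continuousOn.sub continuousOn_const).sup continuousOn_const)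
  have hV0 : ∀ z, 0 ≤ Vt ρ t c z := fun z => mul_nonneg ht (le_max_right _ _)
  refine ⟨Ef ρ (Vt ρ t c), Ef_continuousOn hρ.continuousOn hV,
    isCompact_sub hV hV0 hex, fun a b hab => ?_⟩
  have hcont : ContinuousOn (fun ζ : ℂ => Ef ρ (Vt ρ t c) (a + ζ • b)) (closedBall 0 1) := by
    refine (Ef_continuousOn hρ.continuousOn hV).comp (by fun_prop) ?_
    intro ζ hζ
    exact hab ζ (mem_closedBall_zero_iff.1 hζ)
  have h := submean_of_vsub (u := fun ζ : ℂ => Ef ρ (Vt ρ t c) (a + ζ • b)) one_pos hcont ?_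
  · simpa using h
  · intro y hy
    have hy1 : a + y • b ∈ HD Ω (Vt ρ t c) := hab y (mem_ball_zero_iff.1 hy).le
    have e : (fun h : ℂ => Ef ρ (Vt ρ t c) (a + (y + h) • b)) =
        fun h : ℂ => Ef ρ (Vt ρ t c) ((a + y • b) + h • b) := by
      funext h
      rw [add_smul, add_assoc]
    show VSub (fun h : ℂ => Ef ρ (Vt ρ t c) (a + (y + h) • b))
    rw [e]
    set x := a + y • b with hxdef
    have hline : Continuous fun ζ : ℂ => x + ζ • b := by fun_prop
    have hlim : Tendsto (fun ζ : ℂ => x + ζ • b) (𝓝 0) (𝓝 x) := by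
      simpa using hline.tendsto 0
    have ev : ∀ᶠ ζ : ℂ in 𝓝 0, uf (Vt ρ t c) (x + ζ • b) < 0 := by
      filter_upwards [hlim.eventually ((isOpen_HD ho hV).mem_nhds hy1)] with ζ hζ
      exact uf_neg hζ.2
    have v1 := vsub_neg_inv (vsub_uf ho hρ hL (c := c) ht hy1.1 b) ev
    obtain ⟨g2, l2, h2, hl2⟩ := vsub_rho ho hρ hL hy1.1 (Fin.tail b)
    have v2 := h2.vsub hl2
    exact v2.sup v1

end Pool.Agent.W731
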