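import Pool.Agent.H314.BK.FMain
import Pool.Agent.W731.Hart

set_option autoImplicit false

open MeasureTheory Filter Topology Metric
open scoped ContDiff InnerProductSpace ENNReal ComplexConjugate

namespace Pool.Agent.W731

open BK

/-- the constant of the mean value inequality -/
noncomputable def MV (m : ℕ) (s : ℝ) : ℝ :=
  (eLpNorm (fun y : En m => ((JC2.rho s y : ℝ) : ℂ)) 2 volume).toReal

theorem mv_bound {m : ℕ} {D : Set (En m)} {s : ℝ} (hs : 0 < s) {x : En m}
    (hx : closedBall x s ⊆ D) (h : En m → ℂ) (hh : ∀ y ∈ closedBall x s, DifferentiableAt ℂ h y)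
    (f : L2 D) (hfh : ∀ᵐ y ∂((volume : Measure (En m)).restrict D), f y = h y) :
    ‖h x‖ ≤ MV m s * ‖f‖ := by
  set k0 : En m → ℂ := fun y => ((JC2.rho s y : ℝ) : ℂ) with hk0
  have hc0 : Continuous k0 :=
    Complex.continuous_ofReal.comp (JC2.rho_contDiff s).continuous
  have hs0 : HasCompactSupport k0 := (JC2.rho_compact hs).comp_left (g := Complex.ofReal) rfl
  have hk0m : MemLp k0 2 (volume : Measure (En m)) := hc0.memLp_of_hasCompactSupport hs0
  set k : En m → ℂ := fun y => k0 (x - y) with hk
  have hmp : MeasurePreserving (fun y : En m => x - y) volume volume :=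
    (volume : Measure (En m)).measurePreserving_sub_left x
  have hkm : MemLp k 2 (volume : Measure (En m)) := hk0m.comp_measurePreserving hmp
  have hkD : MemLp k 2 ((volume : Measure (En m)).restrict D) := hkm.restrict D
  have hn : ‖hkD.toLp k‖ ≤ MV m s := by
    rw [Lp.norm_toLp]
    unfold MV
    refine ENNReal.toReal_mono hk0m.2.ne ?_
    refine (eLpNorm_mono_measure _ Measure.restrict_le_self).trans ?_
    exact (eLpNorm_comp_measurePreserving hk0m.1 hmp).le
  have e1 : inner ℂ (hkD.toLp k) f = h x := by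
    rw [JB6.wd_inner]
    have e2 : ∫ y in D, conj ((hkD.toLp k : L2 D) y) * f y = ∫ y in D, k y * h y := by
      apply integral_congr_ae
      filter_upwards [hkD.coeFn_toLp, hfh] with y h1 h2
      rw [h1, h2]
      simp [hk, hk0]
    rw [e2]
    have e3 : ∫ y in D, k y * h y = ∫ y, k y * h y := by
      refine setIntegral_eq_integral_of_forall_compl_eq_zero fun y hy => ?_
      have : k y = 0 := by
        simp only [hk, hk0]
        rw [JC2.rho_zero_of hs, Complex.ofReal_zero]
        by_contra hcon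
        push Not at hcon
        refine hy (hx ?_)
        rw [mem_closedBall_iff_norm, ← norm_neg, neg_sub]
        exact hcon.le
      rw [this, zero_mul]
    rw [e3]
    have e4 := integral_sub_left_eq_self (fun w : En m => (JC2.rho s w) • h (x - w)) volume x
    rw [JC2.wMV h x s hs hh] at e4
    rw [← e4]
    congr 1
    funext y
    simp [hk, hk0]
  rw [← e1]
  exact (norm_inner_le_norm _ _).trans (mul_le_mul_of_nonneg_right hn (norm_nonneg _))

variable {n : ℕ}

theorem lint_HD' {Ω : Set (En n)} (ho : IsOpen Ω) {V : En n → ℝ} (hVm : Measurable V) :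
    ∫⁻ x in HD Ω V, ENNReal.ofReal (Real.exp (2 * V (Fin.tail x))) =
      ENNReal.ofReal Real.pi * volume Ω := by
  have hHD : MeasurableSet (HD Ω V) := by
    have h1 : Measurable (fun x : En (n + 1) => (Fin.tail x : En n)) := continuous_tail.measurable
    have h2 : Measurable (qf V) := by
      unfold qf
      exact (measurable_pi_apply 0).norm.mul (Real.measurable_exp.comp (hVm.comp h1))
    exact (h1 ho.measurableSet).inter (h2 measurableSet_Iio)
  rw [← lintegral_indicator hHD]
  set e := MeasurableEquiv.piFinSuccAbove (fun _ : Fin (n + 1) => ℂ) 0 with he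
  have hmp := volume_preserving_piFinSuccAbove (fun _ : Fin (n + 1) => ℂ) 0
  have hms : MeasurePreserving e.symm (volume.prod volume) volume := hmp.symm e
  rw [← hms.lintegral_comp_emb e.symm.measurableEmbedding]
  have hes : ∀ p : ℂ × En n, e.symm p = Fin.cons p.1 p.2 := by
    intro p
    exact Fin.insertNth_zero' p.1 p.2
  have hF : Measurable (fun p : ℂ × En n => (HD Ω V).indicator
      (fun x => ENNReal.ofReal (Real.exp (2 * V (Fin.tail x)))) (e.symm p)) := by
    have h0 : Measurable ((HD Ω V).indicator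
        (fun x => ENNReal.ofReal (Real.exp (2 * V (Fin.tail x))))) := by
      refine Measurable.indicator ?_ hHD
      exact (Real.measurable_exp.comp (measurable_const.mul
        (hVm.comp continuous_tail.measurable))).ennreal_ofReal
    exact h0.comp e.symm.measurable
  rw [lintegral_prod_symm' _ hF]
  have hin : ∀ z : En n, ∫⁻ w : ℂ, (HD Ω V).indicator
      (fun x => ENNReal.ofReal (Real.exp (2 * V (Fin.tail x)))) (e.symm (w, z)) =
      Ω.indicator (fun _ => ENNReal.ofReal Real.pi) z := by
    intro z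
    by_cases hz : z ∈ Ω
    · rw [Set.indicator_of_mem hz]
      have h1 : ∀ w : ℂ, (HD Ω V).indicator
          (fun x => ENNReal.ofReal (Real.exp (2 * V (Fin.tail x)))) (e.symm (w, z)) =
          (ball (0 : ℂ) (Real.exp (-V z))).indicator
            (fun _ => ENNReal.ofReal (Real.exp (2 * V z))) w := by
        intro w
        rw [hes]
        have hiff : (Fin.cons w z : En (n + 1)) ∈ HD Ω V ↔ w ∈ ball (0 : ℂ) (Real.exp (-V z)) := by
          rw [mem_HD, mem_ball_zero_iff]
          simp only [Fin.tail_cons, qf, Fin.cons_zero]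
          rw [Real.exp_neg, ← one_div, lt_div_iff₀ (Real.exp_pos _)]
          exact ⟨fun h => h.2, fun h => ⟨hz, h⟩⟩
        by_cases hw : w ∈ ball (0 : ℂ) (Real.exp (-V z))
        · rw [Set.indicator_of_mem hw, Set.indicator_of_mem (hiff.2 hw), Fin.tail_cons]
        · rw [Set.indicator_of_notMem hw, Set.indicator_of_notMem fun h => hw (hiff.1 h)]
      simp_rw [h1]
      rw [lintegral_indicator_const measurableSet_ball, Complex.volume_ball,
        ← ENNReal.ofReal_pow (Real.exp_pos _).le, ← mul_assoc,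
        ← ENNReal.ofReal_mul (Real.exp_pos _).le]
      have h2 : Real.exp (2 * V z) * Real.exp (-V z) ^ 2 = 1 := by
        rw [← Real.exp_nat_mul, ← Real.exp_add]
        simp
      rw [h2, ENNReal.ofReal_one, one_mul]
      exact (ENNReal.ofReal_coe_nnreal (p := NNReal.pi)).symm
    · rw [Set.indicator_of_notMem hz]
      have h1 : ∀ w : ℂ, (HD Ω V).indicator
          (fun x => ENNReal.ofReal (Real.exp (2 * V (Fin.tail x)))) (e.symm (w, z)) = 0 := by
        intro w
        rw [hes]
        refine Set.indicator_of_notMem (fun h => hz ?_) _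
        have := h.1
        rwa [Fin.tail_cons] at this
      simp_rw [h1]
      simp
  simp_rw [hin]
  rw [lintegral_indicator_const ho.measurableSet]

theorem lint_HD {Ω : Set (En n)} (ho : IsOpen Ω) {V : En n → ℝ} (hV : ContinuousOn V Ω) :
    ∫⁻ x in HD Ω V, ENNReal.ofReal (Real.exp (2 * V (Fin.tail x))) =
      ENNReal.ofReal Real.pi * volume Ω := by
  classical
  have hVm : Measurable (Ω.indicator V) := by
    have h0 := hV.measurable_piecewise (g := (0 : En n → ℝ)) continuousOn_const ho.measurableSet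
    rwa [Set.piecewise_eq_indicator] at h0
  have h1 := lint_HD' ho hVm
  have h2 : HD Ω (Ω.indicator V) = HD Ω V := by
    ext x
    rw [mem_HD, mem_HD]
    refine and_congr_right fun hx => ?_
    unfold qf
    rw [Set.indicator_of_mem hx]
  rw [h2] at h1
  rw [← h1]
  refine setLIntegral_congr_fun (isOpen_HD ho hV).measurableSet fun x hx => ?_
  rw [Set.indicator_of_mem hx.1]

/-- A smooth compactly supported function as an element of the domain of `∂̄`. -/
theorem isDbar0_smooth {m : ℕ} (D : Set (En m)) {v : En m → ℂ} (hv : ContDiff ℝ ∞ v)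
    (hc : HasCompactSupport v) : ∃ (f : L2 D) (G : Form D), IsDbar0 D f G ∧
      (∀ᵐ y ∂((volume : Measure (En m)).restrict D), f y = v y) ∧
      ∀ j, ∀ᵐ y ∂((volume : Measure (En m)).restrict D), G j y = dbar j v y := by
  have hT : IsTest Set.univ v := ⟨hv, hc, Set.subset_univ _⟩
  have hT' : ∀ j, IsTest Set.univ (dbar j v) := fun j => JC1.co_isTest_dbar hT j
  have hm : MemLp v 2 ((volume : Measure (En m)).restrict D) :=
    (hv.continuous.memLp_of_hasCompactSupport hc).restrict D
  have hm' : ∀ j, MemLp (dbar j v) 2 ((volume : Measure (En m)).restrict D) := fun j =>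
    ((hT' j).smooth.continuous.memLp_of_hasCompactSupport (hT' j).compact).restrict D
  refine ⟨hm.toLp v, WithLp.toLp 2 (fun j => (hm' j).toLp (dbar j v)), ?_, hm.coeFn_toLp,
    fun j => (hm' j).coeFn_toLp⟩
  intro j φ hφ
  have h1 : ∫ x in D, (hm.toLp v : L2 D) x * dbar j φ x = ∫ x in D, v x * dbar j φ x := by
    apply integral_congr_ae
    filter_upwards [hm.coeFn_toLp] with x hx
    rw [hx]
  have h2 : ∫ x in D, ((hm' j).toLp (dbar j v) : L2 D) x * φ x = ∫ x in D, dbar j v x * φ x := by
    apply integral_congr_ae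
    filter_upwards [(hm' j).coeFn_toLp] with x hx
    rw [hx]
  show ∫ x in D, (hm.toLp v : L2 D) x * dbar j φ x =
    - ∫ x in D, ((hm' j).toLp (dbar j v) : L2 D) x * φ x
  rw [h1, h2, JB6.wd_int_Ω (JB6.wd_isTest hφ j), JB6.wd_int_Ω hφ, JB6.wd_ibp hT hφ]

/-- norm estimate in the Hartogs domain -/
theorem norm_G {Ω : Set (En n)} (ho : IsOpen Ω) (hb : Bornology.IsBounded Ω) {V : En n → ℝ}
    (hV : ContinuousOn V Ω) (g : L2 (HD Ω V)) {B : ℝ}
    (hg : ∀ᵐ x ∂((volume : Measure (En (n + 1))).restrict (HD Ω V)),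
      ‖g x‖ ≤ B * Real.exp (V (Fin.tail x))) :
    ‖g‖ ^ 2 ≤ B ^ 2 * (Real.pi * (volume : Measure (En n)).real Ω) := by
  rw [JB6.wd_norm_sq]
  have hmeas : AEStronglyMeasurable (fun x => ‖g x‖ ^ 2)
      ((volume : Measure (En (n + 1))).restrict (HD Ω V)) :=
    ((Lp.aestronglyMeasurable g).norm.pow 2)
  rw [integral_eq_lintegral_of_nonneg_ae (Eventually.of_forall fun x => sq_nonneg _) hmeas]
  have h1 : ∫⁻ x in HD Ω V, ENNReal.ofReal (‖g x‖ ^ 2) ≤
      ENNReal.ofReal (B ^ 2) * (ENNReal.ofReal Real.pi * volume Ω) := by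
    rw [← lint_HD ho hV, ← lintegral_const_mul' _ _ ENNReal.ofReal_ne_top]
    refine lintegral_mono_ae ?_
    filter_upwards [hg] with x hx
    rw [← ENNReal.ofReal_mul (sq_nonneg _)]
    refine ENNReal.ofReal_le_ofReal ?_
    calc ‖g x‖ ^ 2 ≤ (B * Real.exp (V (Fin.tail x))) ^ 2 := pow_le_pow_left₀ (norm_nonneg _) hx 2
      _ = B ^ 2 * Real.exp (2 * V (Fin.tail x)) := by
        rw [mul_pow, ← Real.exp_nat_mul]
        norm_num
  have hfin : volume Ω ≠ ⊤ := hb.measure_lt_top.ne
  refine (ENNReal.toReal_mono ?_ h1).trans (le_of_eq ?_)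
  · exact ENNReal.mul_ne_top ENNReal.ofReal_ne_top (ENNReal.mul_ne_top ENNReal.ofReal_ne_top hfin)
  · rw [ENNReal.toReal_mul, ENNReal.toReal_mul, ENNReal.toReal_ofReal (sq_nonneg _),
      ENNReal.toReal_ofReal Real.pi_pos.le]
    rfl

end Pool.Agent.W731
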