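import Pool.Agent.W731.L2ex
import Pool.Agent.W731.Mean

set_option autoImplicit false

open MeasureTheory Filter Topology Metric
open scoped ContDiff InnerProductSpace ENNReal ComplexConjugate

namespace Pool.Agent.W731

open BK

variable {n : ℕ}

theorem dbar_congr {m : ℕ} {f g : En m → ℂ} {x : En m} (h : f =ᶠ[𝓝 x] g) (j : Fin m) :
    dbar j f x = dbar j g x := by
  unfold dbar
  rw [h.fderiv_eq]

theorem dbar_const {m : ℕ} (c : ℂ) (x : En m) (j : Fin m) : dbar j (fun _ => c) x = 0 := by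
  unfold dbar
  simp

theorem continuous_cons0 : Continuous (fun z : En n => (Fin.cons 0 z : En (n + 1))) := by
  refine continuous_pi fun i => ?_
  refine Fin.cases ?_ (fun j => ?_) i
  · simpa using continuous_const
  · simp only [Fin.cons_succ]
    exact continuous_apply j

theorem differentiable_cons0 :
    Differentiable ℂ (fun z : En n => (Fin.cons 0 z : En (n + 1))) := by
  rw [differentiable_pi]
  intro i
  refine Fin.cases ?_ (fun j => ?_) i
  · simp
  · simp only [Fin.cons_succ]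
    exact differentiable_apply j

theorem differentiable_tail : Differentiable ℂ (fun x : En (n + 1) => (Fin.tail x : En n)) := by
  rw [differentiable_pi]
  intro i
  exact differentiable_apply _

theorem contDiff_tail : ContDiff ℝ ∞ (fun x : En (n + 1) => (Fin.tail x : En n)) := by
  rw [contDiff_pi]
  intro i
  exact contDiff_apply ℝ ℂ _

theorem norm_tail_le (x : En (n + 1)) : ‖(Fin.tail x : En n)‖ ≤ ‖x‖ :=
  (pi_norm_le_iff_of_nonneg (norm_nonneg _)).2 fun i => norm_le_pi_norm x i.succ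

/-- the peak function construction on a Hartogs domain, for one value of `t` -/
theorem peak_t {Ω : Set (En n)} (ho : IsOpen Ω) (hb : Bornology.IsBounded Ω) {ρ : En n → ℝ}
    (hρ : ContDiffOn ℝ ∞ ρ Ω) (hex : ∀ M : ℝ, IsCompact {x ∈ Ω | ρ x ≤ M})
    (hL : ∀ x ∈ Ω, ∀ a, 0 ≤ Lv ρ x a) {R : ℝ} (hR0 : 0 ≤ R) (hR1 : 1 ≤ R)
    (hR : ∀ z ∈ Ω, ∀ j, ‖z j‖ ≤ R) {t c : ℝ} (ht : 0 ≤ t) {B : ℝ}
    {v : En (n + 1) → ℂ} (hv : ContDiff ℝ ∞ v) (hvc : HasCompactSupport v)
    (hvB : ∀ x ∈ HD Ω (Vt ρ t c), ∀ j, ‖dbar j v x‖ ≤ B * Real.exp (Vt ρ t c (Fin.tail x)))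
    {s : ℝ} (hs : 0 < s) :
    ∃ F : En (n + 1) → ℂ, DifferentiableOn ℂ F (HD Ω (Vt ρ t c)) ∧
      ∀ x, closedBall x s ⊆ HD Ω (Vt ρ t c) → (∀ y ∈ closedBall x s, DifferentiableAt ℂ v y) →
        ‖v x - F x‖ ≤ MV (n + 1) s * (2 * (n + 1 : ℕ) * R * √(((n + 1 : ℕ) : ℝ) * (B ^ 2 *
          (Real.pi * (volume : Measure (En n)).real Ω)))) := by
  have hV : ContinuousOn (Vt ρ t c) Ω := by
    unfold Vt
    exact continuousOn_const.mul ((hρ.continuousOn.sub continuousOn_const).sup continuousOn_const)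
  have hV0 : ∀ z, 0 ≤ Vt ρ t c z := fun z => mul_nonneg ht (le_max_right _ _)
  set D := HD Ω (Vt ρ t c) with hD
  have hDo : IsOpen D := isOpen_HD ho hV
  have hx0 : ∀ x ∈ D, ‖x 0‖ < 1 := by
    intro x hx
    have h6 : qf (Vt ρ t c) x < 1 := hx.2
    unfold qf at h6
    have h7 : 1 ≤ Real.exp (Vt ρ t c (Fin.tail x)) := Real.one_le_exp (hV0 _)
    nlinarith [norm_nonneg (x 0)]
  have hDR : ∀ x ∈ D, ∀ j, ‖x j‖ ≤ R := by
    intro x hx j
    refine Fin.cases ?_ (fun i => ?_) j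
    · exact (hx0 x hx).le.trans hR1
    · exact hR _ hx.1 i
  have hDb : Bornology.IsBounded D := by
    rw [isBounded_iff_forall_norm_le]
    exact ⟨R, fun x hx => (pi_norm_le_iff_of_nonneg hR0).2 (hDR x hx)⟩
  have hpsc : PscC D := psc_HD ho hρ hex hL ht
  obtain ⟨hKM, -⟩ := km D hDo hDb hpsc
  obtain ⟨f0, G, hfG, hf0, hG⟩ := isDbar0_smooth D hv hvc
  obtain ⟨u, hu, hun⟩ := l2ex D hDo hDb hKM hR0 hDR G (JC1.co_dbar_dbar D f0 G hfG)
  have hGn : ‖G‖ ≤ √(((n + 1 : ℕ) : ℝ) * (B ^ 2 *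
      (Real.pi * (volume : Measure (En n)).real Ω))) := by
    have h1 : ‖G‖ ^ 2 ≤ ((n + 1 : ℕ) : ℝ) * (B ^ 2 *
        (Real.pi * (volume : Measure (En n)).real Ω)) := by
      rw [PiLp.norm_sq_eq_of_L2]
      refine (Finset.sum_le_sum (g := fun _ => B ^ 2 *
        (Real.pi * (volume : Measure (En n)).real Ω)) fun j _ => ?_).trans (by simp)
      refine norm_G ho hb hV (G j) ?_
      filter_upwards [hG j, ae_restrict_mem hDo.measurableSet] with x hx hxD
      rw [hx]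
      exact hvB x hxD j
    exact Real.le_sqrt_of_sq_le h1
  obtain ⟨T, hT, -⟩ := JC1.co_graph0 D
  have h0 : IsDbar0 D (f0 - u) 0 := by
    rw [← hT]
    have := T.sub_mem ((hT _ _).2 hfG) ((hT _ _).2 hu)
    simpa using this
  obtain ⟨F, hF, hFe⟩ := (JC2.weyl D hDo hDb (f0 - u)).1 h0
  refine ⟨F, hF, fun x hx hvx => ?_⟩
  have huae : ∀ᵐ y ∂((volume : Measure (En (n + 1))).restrict D), u y = v y - F y := by
    filter_upwards [hFe, hf0, Lp.coeFn_sub f0 u] with y h1 h2 h3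
    rw [← h1, h3, Pi.sub_apply, h2]
    ring
  have h1 := mv_bound hs hx (fun y => v y - F y) (fun y hy => (hvx y hy).sub
    ((hF y (hx hy)).differentiableAt (hDo.mem_nhds (hx hy)))) u huae
  have hMV : 0 ≤ MV (n + 1) s := ENNReal.toReal_nonneg
  refine h1.trans (mul_le_mul_of_nonneg_left (hun.trans ?_) hMV)
  exact mul_le_mul_of_nonneg_left hGn (by positivity)

/-- Levi problem, quantitative form: strict sublevel sets of a smooth strictly plurisubharmonic
exhaustion function are separated from outside points by holomorphic functions. -/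
theorem levi_sep {Ω : Set (En n)} (ho : IsOpen Ω) (hb : Bornology.IsBounded Ω) {ρ : En n → ℝ}
    (hρ : ContDiffOn ℝ ∞ ρ Ω) (hex : ∀ M : ℝ, IsCompact {x ∈ Ω | ρ x ≤ M}) {c : ℝ} (hc : 0 < c)
    (hL : ∀ x ∈ Ω, ∀ a, c * ‖a‖ ^ 2 ≤ Lv ρ x a) {K : Set (En n)} (hK : IsCompact K)
    (hKΩ : K ⊆ Ω) {z0 : En n} (hz0 : z0 ∈ Ω) (hlt : ∀ z ∈ K, ρ z < ρ z0) :
    ∃ f : En n → ℂ, DifferentiableOn ℂ f Ω ∧ (∀ z ∈ K, ‖f z‖ ≤ 1 / 4) ∧ 3 / 4 ≤ ‖f z0‖ := by
  have hL0 : ∀ x ∈ Ω, ∀ a, 0 ≤ Lv ρ x a := fun x hx a =>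
    (by positivity : (0 : ℝ) ≤ c * ‖a‖ ^ 2).trans (hL x hx a)
  have hρ2 : ContDiffAt ℝ 2 ρ z0 := (hρ.contDiffAt (ho.mem_nhds hz0)).of_le (by
    exact WithTop.coe_le_coe.2 le_top)
  obtain ⟨P, hPd, hPs, hP0, r, hr, hPr⟩ := levi_poly hρ2 hc (hL z0 hz0)
  have hz0K : z0 ∉ K := fun h => lt_irrefl _ (hlt z0 h)
  obtain ⟨d, hd, hdK⟩ := Metric.isOpen_iff.1 hK.isClosed.isOpen_compl z0 hz0K
  set r1 : ℝ := min (r / 4) (d / 4) with hr1
  have hr1pos : 0 < r1 := by positivity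
  have hr1r : r1 ≤ r / 4 := min_le_left _ _
  have hr1d : r1 ≤ d / 4 := min_le_right _ _
  set δ : ℝ := c / 2 * r1 ^ 2 with hδ
  have hδpos : 0 < δ := by positivity
  set c' : ℝ := ρ z0 + δ / 2 with hc'
  have hUo : IsOpen (Ω ∩ ρ ⁻¹' Set.Iio c') := hρ.continuousOn.isOpen_inter_preimage ho isOpen_Iio
  have hK' : IsCompact (insert z0 K) := hK.insert z0
  have hK'U : insert z0 K ⊆ Ω ∩ ρ ⁻¹' Set.Iio c' := by
    intro z hz
    rcases Set.mem_insert_iff.1 hz with h | h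
    · subst h
      exact ⟨hz0, by show ρ z < c'; linarith⟩
    · exact ⟨hKΩ h, by show ρ z < c'; linarith [hlt z h]⟩
  obtain ⟨s0, hs0, hthick⟩ := hK'.exists_cthickening_subset_open hUo hK'U
  set s : ℝ := min (min s0 (r1 / 2)) (1 / 2) with hs
  have hspos : 0 < s := by positivity
  have hss0 : s ≤ s0 := (min_le_left _ _).trans (min_le_left _ _)
  have hsr1 : s ≤ r1 / 2 := (min_le_left _ _).trans (min_le_right _ _)
  have hs12 : s ≤ 1 / 2 := min_le_right _ _
  obtain ⟨R0, hR0⟩ := hb.exists_norm_le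
  set R : ℝ := max R0 1 with hRdef
  have hR1 : 1 ≤ R := le_max_right _ _
  have hR00 : 0 ≤ R := by linarith
  have hR : ∀ z ∈ Ω, ∀ j, ‖z j‖ ≤ R := fun z hz j =>
    (norm_le_pi_norm z j).trans ((hR0 z hz).trans (le_max_left _ _))
  -- cut-off functions
  let χ : ContDiffBump z0 := ⟨r1, 2 * r1, hr1pos, by linarith⟩
  let κ : ContDiffBump (0 : ℂ) := ⟨1, 2, one_pos, by norm_num⟩
  set a : En (n + 1) → ℂ := fun x => ((χ (Fin.tail x) * κ (x 0) : ℝ) : ℂ) with ha
  have has : ContDiff ℝ ∞ a := by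
    have h1 : ContDiff ℝ ∞ (fun x : En (n + 1) => χ (Fin.tail x)) := χ.contDiff.comp contDiff_tail
    have h2 : ContDiff ℝ ∞ (fun x : En (n + 1) => κ (x 0)) :=
      κ.contDiff.comp (contDiff_apply ℝ ℂ 0)
    exact Complex.ofRealCLM.contDiff.comp (h1.mul h2)
  have hχ1 : ∀ z, ‖z - z0‖ < r1 → ∀ᶠ w in 𝓝 z, χ w = 1 := by
    intro z hz
    have : z ∈ ball z0 χ.rIn := by rw [mem_ball_iff_norm]; exact hz
    filter_upwards [isOpen_ball.mem_nhds this] with w hw
    exact χ.one_of_mem_closedBall (ball_subset_closedBall hw)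
  have hχ0 : ∀ z, 2 * r1 < ‖z - z0‖ → ∀ᶠ w in 𝓝 z, χ w = 0 := by
    intro z hz
    have hopen : IsOpen {w : En n | 2 * r1 < ‖w - z0‖} := isOpen_lt continuous_const (by fun_prop)
    filter_upwards [hopen.mem_nhds hz] with w hw
    exact χ.zero_of_le_dist (by rw [dist_eq_norm]; exact le_of_lt hw)
  have hκ1 : ∀ w : ℂ, ‖w‖ < 1 → ∀ᶠ y in 𝓝 w, κ y = 1 := by
    intro w hw
    have : w ∈ ball (0 : ℂ) κ.rIn := by rw [mem_ball_zero_iff]; exact hw
    filter_upwards [isOpen_ball.mem_nhds this] with y hy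
    exact κ.one_of_mem_closedBall (ball_subset_closedBall hy)
  have htl : ∀ x : En (n + 1), Tendsto (fun y : En (n + 1) => (Fin.tail y : En n)) (𝓝 x)
      (𝓝 (Fin.tail x)) := fun x => continuous_tail.tendsto x
  have h0l : ∀ x : En (n + 1), Tendsto (fun y : En (n + 1) => y 0) (𝓝 x) (𝓝 (x 0)) :=
    fun x => (continuous_apply 0).tendsto x
  have ha1 : ∀ x : En (n + 1), ‖Fin.tail x - z0‖ < r1 → ‖x 0‖ < 1 → a =ᶠ[𝓝 x] fun _ => 1 := by
    intro x h1 h2
    filter_upwards [(htl x).eventually (hχ1 _ h1), (h0l x).eventually (hκ1 _ h2)] with y hy1 hy2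
    simp only [ha]
    rw [hy1, hy2]
    simp
  have ha0 : ∀ x : En (n + 1), 2 * r1 < ‖Fin.tail x - z0‖ → a =ᶠ[𝓝 x] fun _ => 0 := by
    intro x h1
    filter_upwards [(htl x).eventually (hχ0 _ h1)] with y hy1
    simp only [ha]
    rw [hy1]
    simp
  have hac : HasCompactSupport a := by
    refine HasCompactSupport.intro (isCompact_closedBall (0 : En (n + 1)) (‖z0‖ + 2 * r1 + 2)) ?_
    intro x hx
    by_contra hcon
    apply hx
    rw [mem_closedBall_zero_iff]
    have hχx : χ (Fin.tail x) ≠ 0 := by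
      intro h
      apply hcon
      simp only [ha]
      rw [h]
      simp
    have hκx : κ (x 0) ≠ 0 := by
      intro h
      apply hcon
      simp only [ha]
      rw [h]
      simp
    have h1 : dist (Fin.tail x) z0 < 2 * r1 := by
      by_contra h
      push Not at h
      exact hχx (χ.zero_of_le_dist h)
    have h2 : dist (x 0) 0 < 2 := by
      by_contra h
      push Not at h
      exact hκx (κ.zero_of_le_dist h)
    rw [dist_zero_right] at h2
    have h3 : ‖(Fin.tail x : En n)‖ ≤ ‖z0‖ + 2 * r1 := by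
      have := norm_le_norm_add_norm_sub' (Fin.tail x : En n) z0
      rw [← dist_eq_norm] at this
      linarith
    refine (pi_norm_le_iff_of_nonneg (by positivity)).2 fun i => ?_
    refine Fin.cases ?_ (fun j => ?_) i
    · linarith [norm_nonneg z0]
    · have := norm_le_pi_norm (Fin.tail x : En n) j
      have e : (Fin.tail x : En n) j = x j.succ := rfl
      rw [e] at this
      linarith
  have haT : IsTest Set.univ a := ⟨has, hac, Set.subset_univ _⟩
  have hbd : ∀ j, ∃ C, ∀ x, ‖dbar j a x‖ ≤ C := fun j =>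
    (JC1.co_isTest_dbar haT j).smooth.continuous.bounded_above_of_compact_support
      (JC1.co_isTest_dbar haT j).compact
  choose Cj hCj using hbd
  set C : ℝ := ∑ j, |Cj j| with hCdef
  have hC0 : 0 ≤ C := Finset.sum_nonneg fun j _ => abs_nonneg _
  have hC : ∀ j x, ‖dbar j a x‖ ≤ C := by
    intro j x
    refine (hCj j x).trans ((le_abs_self _).trans ?_)
    exact Finset.single_le_sum (f := fun j => |Cj j|) (fun i _ => abs_nonneg _)
      (Finset.mem_univ j)
  -- choice of `t`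
  set Q : ℝ → ℝ := fun e => MV (n + 1) s * (2 * (n + 1 : ℕ) * R * √(((n + 1 : ℕ) : ℝ) *
    ((C * e) ^ 2 * (Real.pi * (volume : Measure (En n)).real Ω)))) with hQ
  have hQc : Continuous Q := by
    simp only [hQ]
    fun_prop
  have hQ0 : Q 0 = 0 := by simp [hQ]
  have hexp : Tendsto (fun t : ℝ => Real.exp (-(t * (δ / 2)))) atTop (𝓝 0) := by
    refine Real.tendsto_exp_neg_atTop_nhds_zero.comp ?_
    exact tendsto_id.atTop_mul_const (half_pos hδpos)
  have hQl : Tendsto (fun t : ℝ => Q (Real.exp (-(t * (δ / 2))))) atTop (𝓝 0) := by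
    have := (hQc.tendsto 0).comp hexp
    rwa [hQ0] at this
  obtain ⟨t, ht1, ht2⟩ := ((hQl.eventually (Iio_mem_nhds (show (0:ℝ) < 1 / 4 by norm_num))).and
    (eventually_ge_atTop 0)).exists
  have hQt : Q (Real.exp (-(t * (δ / 2)))) < 1 / 4 := ht1
  -- the function `v`
  set b : En (n + 1) → ℂ := fun x => Complex.exp (t * P (Fin.tail x)) with hbdef
  have hbs : ContDiff ℝ ∞ b := by
    have h1 : ContDiff ℝ ∞ (fun x : En (n + 1) => (t : ℂ) * P (Fin.tail x)) :=
      contDiff_const.mul (hPs.comp contDiff_tail)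
    exact (Complex.contDiff_exp (𝕜 := ℝ)).comp h1
  have hbdiff : Differentiable ℂ b := by
    have h1 : Differentiable ℂ (fun x : En (n + 1) => (t : ℂ) * P (Fin.tail x)) :=
      (hPd.comp differentiable_tail).const_mul _
    exact h1.cexp
  have hvs : ContDiff ℝ ∞ (fun x => a x * b x) := has.mul hbs
  have hvc : HasCompactSupport (fun x => a x * b x) := hac.mul_right
  have hV0 : ∀ z, 0 ≤ Vt ρ t c' z := fun z => mul_nonneg ht2 (le_max_right _ _)
  have hx01 : ∀ x ∈ HD Ω (Vt ρ t c'), ‖x 0‖ < 1 := by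
    intro x hx
    have h6 : qf (Vt ρ t c') x < 1 := hx.2
    unfold qf at h6
    have h7 : 1 ≤ Real.exp (Vt ρ t c' (Fin.tail x)) := Real.one_le_exp (hV0 _)
    nlinarith [norm_nonneg (x 0)]
  have hvB : ∀ x ∈ HD Ω (Vt ρ t c'), ∀ j, ‖dbar j (fun x => a x * b x) x‖ ≤
      (C * Real.exp (-(t * (δ / 2)))) * Real.exp (Vt ρ t c' (Fin.tail x)) := by
    intro x hx j
    have h1 : dbar j (fun x => a x * b x) x = dbar j a x * b x := by
      rw [JB1.JKI.dbar_mul has hbs, JC2.dbar_of_diffAt b x (hbdiff x) j, mul_zero, add_zero]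
    rw [h1]
    have hnn : 0 ≤ (C * Real.exp (-(t * (δ / 2)))) * Real.exp (Vt ρ t c' (Fin.tail x)) := by
      positivity
    rcases lt_or_ge ‖Fin.tail x - z0‖ r1 with h2 | h2
    · rw [dbar_congr (ha1 x h2 (hx01 x hx)) j, dbar_const, zero_mul, norm_zero]
      exact hnn
    rcases lt_or_ge (2 * r1) ‖Fin.tail x - z0‖ with h3 | h3
    · rw [dbar_congr (ha0 x h3) j, dbar_const, zero_mul, norm_zero]
      exact hnn
    rw [norm_mul, mul_assoc]
    refine mul_le_mul (hC j x) ?_ (norm_nonneg _) hC0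
    simp only [hbdef]
    rw [Complex.norm_exp, ← Real.exp_add]
    refine Real.exp_le_exp.2 ?_
    have h4 := hPr (Fin.tail x) (by linarith)
    have h5 : r1 ^ 2 ≤ ‖Fin.tail x - z0‖ ^ 2 := pow_le_pow_left₀ hr1pos.le h2 2
    have h6 : δ ≤ c / 2 * ‖Fin.tail x - z0‖ ^ 2 := mul_le_mul_of_nonneg_left h5 (by positivity)
    have h7 : (P (Fin.tail x)).re ≤ max (ρ (Fin.tail x) - c') 0 - δ / 2 := by
      have := le_max_left (ρ (Fin.tail x) - c') 0
      linarith
    have h8 : ((t : ℂ) * P (Fin.tail x)).re = t * (P (Fin.tail x)).re := Complex.re_ofReal_mul _ _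
    rw [h8]
    unfold Vt
    have := mul_le_mul_of_nonneg_left h7 ht2
    linarith
  obtain ⟨F, hF, hFb⟩ := peak_t ho hb hρ hex hL0 hR00 hR1 hR (c := c') ht2 hvs hvc hvB hspos
  have hball : ∀ z ∈ insert z0 K, closedBall (Fin.cons 0 z : En (n + 1)) s ⊆
      HD Ω (Vt ρ t c') := by
    intro z hz y hy
    rw [mem_closedBall_iff_norm] at hy
    have h1 : ‖(Fin.tail y : En n) - z‖ ≤ s := by
      have h2 := norm_tail_le (y - Fin.cons 0 z)
      have h3 : (Fin.tail (y - Fin.cons 0 z) : En n) = Fin.tail y - z := by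
        funext i
        simp [Fin.tail]
      rw [h3] at h2
      exact h2.trans hy
    have h2 : ‖y 0‖ ≤ s := by
      have h3 := norm_le_pi_norm (y - Fin.cons 0 z) 0
      simp only [Pi.sub_apply, Fin.cons_zero, sub_zero] at h3
      exact h3.trans hy
    have h3 : (Fin.tail y : En n) ∈ Ω ∩ ρ ⁻¹' Set.Iio c' := by
      refine hthick (closedBall_subset_cthickening hz s0 ?_)
      rw [mem_closedBall_iff_norm]
      exact h1.trans hss0
    have h4 : Vt ρ t c' (Fin.tail y) = 0 := by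
      have h5 : ρ (Fin.tail y) < c' := h3.2
      unfold Vt
      rw [max_eq_right (by linarith), mul_zero]
    refine ⟨h3.1, ?_⟩
    unfold qf
    rw [h4, Real.exp_zero, mul_one]
    linarith
  have hmemb : ∀ z, ∀ y ∈ closedBall (Fin.cons 0 z : En (n + 1)) s, ‖(Fin.tail y : En n) - z‖ ≤ s ∧
      ‖y 0‖ ≤ s := by
    intro z y hy
    rw [mem_closedBall_iff_norm] at hy
    constructor
    · have h2 := norm_tail_le (y - Fin.cons 0 z)
      have h3 : (Fin.tail (y - Fin.cons 0 z) : En n) = Fin.tail y - z := by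
        funext i
        simp [Fin.tail]
      rw [h3] at h2
      exact h2.trans hy
    · have h3 := norm_le_pi_norm (y - Fin.cons 0 z) 0
      simp only [Pi.sub_apply, Fin.cons_zero, sub_zero] at h3
      exact h3.trans hy
  refine ⟨fun z => F (Fin.cons 0 z), ?_, ?_, ?_⟩
  · refine hF.comp differentiable_cons0.differentiableOn ?_
    intro z hz
    refine ⟨by simpa using hz, ?_⟩
    unfold qf
    simp
  · intro z hz
    have hfar : ∀ y ∈ closedBall (Fin.cons 0 z : En (n + 1)) s, 2 * r1 < ‖Fin.tail y - z0‖ := by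
      intro y hy
      have h1 := (hmemb z y hy).1
      have h2 : d ≤ ‖z - z0‖ := by
        by_contra hcon
        push Not at hcon
        exact hdK (mem_ball_iff_norm.2 hcon) hz
      have h3 : ‖z - z0‖ ≤ ‖Fin.tail y - z‖ + ‖Fin.tail y - z0‖ := by
        have : z - z0 = -(Fin.tail y - z) + (Fin.tail y - z0) := by abel
        rw [this]
        refine (norm_add_le _ _).trans ?_
        rw [norm_neg]
      linarith
    have h1 := hFb (Fin.cons 0 z) (hball z (Set.mem_insert_of_mem _ hz)) (by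
      intro y hy
      have h2 : (fun x => a x * b x) =ᶠ[𝓝 y] fun _ => 0 := by
        filter_upwards [ha0 y (hfar y hy)] with w hw
        rw [hw, zero_mul]
      exact (differentiableAt_const _).congr_of_eventuallyEq h2)
    have h3 : a (Fin.cons 0 z) = 0 :=
      (ha0 _ (hfar _ (mem_closedBall_self hspos.le))).self_of_nhds
    simp only [h3, zero_mul, zero_sub, norm_neg] at h1
    exact h1.trans hQt.le
  · have h1 := hFb (Fin.cons 0 z0) (hball z0 (Set.mem_insert _ _)) (by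
      intro y hy
      obtain ⟨h2, h3⟩ := hmemb z0 y hy
      have h4 : (fun x => a x * b x) =ᶠ[𝓝 y] b := by
        filter_upwards [ha1 y (by linarith) (by linarith)] with w hw
        rw [hw, one_mul]
      exact (hbdiff y).congr_of_eventuallyEq h4)
    have h3 : a (Fin.cons 0 z0) = 1 :=
      (ha1 _ (by simpa using hr1pos) (by simp)).self_of_nhds
    have h4 : b (Fin.cons 0 z0) = 1 := by
      simp only [hbdef, Fin.tail_cons, hP0, mul_zero, Complex.exp_zero]
    simp only [h3, h4, mul_one] at h1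
    have h5 : ‖(1 : ℂ) - F (Fin.cons 0 z0)‖ ≤ 1 / 4 := h1.trans hQt.le
    have h6 : ‖(1 : ℂ)‖ ≤ ‖(1 : ℂ) - F (Fin.cons 0 z0)‖ + ‖F (Fin.cons 0 z0)‖ := by
      have := norm_add_le ((1 : ℂ) - F (Fin.cons 0 z0)) (F (Fin.cons 0 z0))
      rwa [sub_add_cancel] at this
    rw [norm_one] at h6
    show 3 / 4 ≤ ‖F (Fin.cons 0 z0)‖
    linarith

/-- A bounded open set with a continuous plurisubharmonic exhaustion function is holomorphically
convex (solution of the Levi problem). -/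
theorem holo_convex {Ω : Set (En n)} (ho : IsOpen Ω) (hb : Bornology.IsBounded Ω)
    (hP : PscC Ω) {K : Set (En n)} (hKΩ : K ⊆ Ω) (hK : IsCompact K) :
    IsCompact {z ∈ Ω | ∀ f : En n → ℂ, DifferentiableOn ℂ f Ω →
      ∀ c : ℝ, (∀ w ∈ K, ‖f w‖ ≤ c) → ‖f z‖ ≤ c} := by
  obtain ⟨ψ, hψ, hex, hLψ⟩ := JC3.pscS_of_pscC Ω ho hb hP
  set ρ : En n → ℝ := fun y => ψ y + JB9.we_q y with hρdef
  have hρ : ContDiffOn ℝ ∞ ρ Ω := hψ.add JB9.we_q_smooth.contDiffOn
  have hq0 : ∀ x : En n, 0 ≤ JB9.we_q x := fun x => Finset.sum_nonneg fun j _ => by positivity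
  have hexρ : ∀ M : ℝ, IsCompact {x ∈ Ω | ρ x ≤ M} := by
    intro M
    have h1 : {x ∈ Ω | ρ x ≤ M} = {x ∈ Ω | ψ x ≤ M} ∩ ρ ⁻¹' Set.Iic M := by
      ext x
      constructor
      · rintro ⟨h1, h2⟩
        refine ⟨⟨h1, ?_⟩, h2⟩
        have := hq0 x
        simp only [hρdef] at h2
        linarith
      · rintro ⟨h1, h2⟩
        exact ⟨h1.1, h2⟩
    rw [h1]
    have hcl : IsClosed ({x ∈ Ω | ψ x ≤ M} ∩ ρ ⁻¹' Set.Iic M) :=
      (hρ.continuousOn.mono fun x hx => hx.1).preimage_isClosed_of_isClosed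
        (hex M).isClosed isClosed_Iic
    exact (hex M).of_isClosed_subset hcl Set.inter_subset_left
  have hL : ∀ x ∈ Ω, ∀ a, 1 * ‖a‖ ^ 2 ≤ Lv ρ x a := by
    intro x hx a
    rw [hρdef, JB9.we_Lv_add Ω ho ψ hψ x hx a, one_mul]
    have h1 := hLψ x hx a
    have h2 : ‖a‖ ^ 2 ≤ ∑ j, ‖a j‖ ^ 2 := by
      rcases isEmpty_or_nonempty (Fin n) with he | he
      · have : a = 0 := Subsingleton.elim _ _
        subst this
        simp
      · obtain ⟨j, hj⟩ := exists_eq_ciSup_of_finite (f := fun j => ‖a j‖)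
        have h3 : ‖a‖ ≤ ‖a j‖ := by
          refine (pi_norm_le_iff_of_nonneg (norm_nonneg _)).2 fun i => ?_
          have h4 : ‖a i‖ ≤ ⨆ j, ‖a j‖ :=
            le_ciSup (f := fun j => ‖a j‖) (Set.finite_range _).bddAbove i
          rwa [← hj] at h4
        calc ‖a‖ ^ 2 ≤ ‖a j‖ ^ 2 := pow_le_pow_left₀ (norm_nonneg _) h3 2
          _ ≤ _ := Finset.single_le_sum (f := fun j => ‖a j‖ ^ 2) (fun i _ => sq_nonneg _)
            (Finset.mem_univ j)
    linarith
  rcases K.eq_empty_or_nonempty with hKe | hKne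
  · have : {z ∈ Ω | ∀ f : En n → ℂ, DifferentiableOn ℂ f Ω →
        ∀ c : ℝ, (∀ w ∈ K, ‖f w‖ ≤ c) → ‖f z‖ ≤ c} = ∅ := by
      refine Set.eq_empty_iff_forall_notMem.2 fun z hz => ?_
      have := hz.2 (fun _ => 0) (differentiableOn_const _) (-1) (by simp [hKe])
      simp at this
      linarith
    rw [this]
    exact isCompact_empty
  obtain ⟨zm, hzm, hmax⟩ := hK.exists_isMaxOn hKne (hρ.continuousOn.mono hKΩ)
  have hsub : {z ∈ Ω | ∀ f : En n → ℂ, DifferentiableOn ℂ f Ω →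
      ∀ c : ℝ, (∀ w ∈ K, ‖f w‖ ≤ c) → ‖f z‖ ≤ c} ⊆ {x ∈ Ω | ρ x ≤ ρ zm} := by
    intro z hz
    refine ⟨hz.1, ?_⟩
    by_contra hcon
    push Not at hcon
    obtain ⟨f, hf, hf1, hf2⟩ := levi_sep ho hb hρ hexρ one_pos hL hK hKΩ hz.1
      (fun w hw => (hmax hw : ρ w ≤ ρ zm).trans_lt hcon)
    have := hz.2 f hf (1 / 4) hf1
    linarith
  refine (hexρ (ρ zm)).of_isClosed_subset ?_ hsub
  have hset : {z ∈ Ω | ∀ f : En n → ℂ, DifferentiableOn ℂ f Ω →
      ∀ c : ℝ, (∀ w ∈ K, ‖f w‖ ≤ c) → ‖f z‖ ≤ c} =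
      {x ∈ Ω | ρ x ≤ ρ zm} ∩ ⋂ (f : En n → ℂ) (_ : DifferentiableOn ℂ f Ω) (c : ℝ)
        (_ : ∀ w ∈ K, ‖f w‖ ≤ c), ({x ∈ Ω | ρ x ≤ ρ zm} ∩ (fun z => ‖f z‖) ⁻¹' Set.Iic c) := by
    ext z
    constructor
    · intro hz
      refine ⟨hsub hz, ?_⟩
      simp only [Set.mem_iInter]
      intro f hf c hc
      exact ⟨hsub hz, hz.2 f hf c hc⟩
    · rintro ⟨h1, h2⟩
      refine ⟨h1.1, fun f hf c hc => ?_⟩
      simp only [Set.mem_iInter] at h2
      exact (h2 f hf c hc).2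
  rw [hset]
  refine (hexρ _).isClosed.inter ?_
  refine isClosed_iInter fun f => isClosed_iInter fun hf => isClosed_iInter fun c =>
    isClosed_iInter fun hc => ?_
  exact ContinuousOn.preimage_isClosed_of_isClosed
    (hf.continuousOn.norm.mono fun x hx => hx.1) (hexρ _).isClosed isClosed_Iic

end Pool.Agent.W731
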