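import Pool.Agent.Helper303.Slide4

set_option autoImplicit false
open Filter Topology Asymptotics Metric

namespace Pool.Agent.W731

open Pool.Agent.Helper303

lemma psh_norm {V : Set E2} {f : E2 → ℂ} (hf : DifferentiableOn ℂ f V) (hV : IsOpen V) :
    PSH V (fun z => ‖f z‖) := by
  refine ⟨hf.continuousOn.norm, fun a _ v r hr hd => ?_⟩
  have hg : ∀ ζ ∈ closedBall (0 : ℂ) r, DifferentiableAt ℂ (fun ζ : ℂ => f (a + ζ • v)) ζ := by
    intro ζ hζ
    have h1 : a + ζ • v ∈ V := hd ζ (mem_closedBall_zero_iff.1 hζ)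
    exact DifferentiableAt.comp ζ (g := f) (f := fun ζ : ℂ => a + ζ • v)
      ((hf _ h1).differentiableAt (hV.mem_nhds h1)) (by fun_prop)
  have h := circleAverage_of_differentiable_on_off_countable (f := fun ζ : ℂ => f (a + ζ • v))
    (c := 0) (R := r) Set.countable_empty
    (by
      rw [abs_of_pos hr]
      intro ζ hζ
      exact (hg ζ hζ).continuousAt.continuousWithinAt)
    (by
      rw [abs_of_pos hr]
      intro ζ hζ
      exact hg ζ (ball_subset_closedBall hζ.1))
  rw [Real.circleAverage_def, zero_smul, add_zero] at h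
  show ‖f a‖ ≤ _
  rw [← h, norm_smul, Real.norm_of_nonneg (by positivity)]
  refine mul_le_mul_of_nonneg_left ?_ (by positivity)
  refine (intervalIntegral.norm_integral_le_integral_norm Real.two_pi_pos.le).trans (le_of_eq ?_)
  refine intervalIntegral.integral_congr fun θ _ => ?_
  simp [circleMap]

theorem all_in' (Q : Cheese) {V : Set E2} (hV : IsOpen V) (hcl : closure (Om Q) ⊆ V)
    (hcomp : IsCompact {z | z ∈ V ∧ ∀ f : E2 → ℂ, DifferentiableOn ℂ f V → ∀ c : ℝ,
      (∀ w ∈ closure (Om Q), ‖f w‖ ≤ c) → ‖f z‖ ≤ c}) :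
    ∃ J : Finset ℕ, Ca Q J a1c ⊆ V := by
  have ha1pos : 0 < a1c := by rw [a1c]; norm_num
  set L : Set E2 := {z | z ∈ V ∧ ∀ f : E2 → ℂ, DifferentiableOn ℂ f V → ∀ c : ℝ,
      (∀ w ∈ closure (Om Q), ‖f w‖ ≤ c) → ‖f z‖ ≤ c} with hL
  have hLc : IsClosed L := hcomp.isClosed
  have hmemL : ∀ x, x ∈ L ↔ (x ∈ V ∧ ∀ f : E2 → ℂ, DifferentiableOn ℂ f V → ∀ c : ℝ,
      (∀ w ∈ closure (Om Q), ‖f w‖ ≤ c) → ‖f x‖ ≤ c) := fun x => Iff.rfl
  have hclL : closure (Om Q) ⊆ L := fun x hx => (hmemL x).2 ⟨hcl hx, fun f hf c hc => hc x hx⟩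
  -- the complement inside the compact piece
  have hK' : IsCompact (Kpi \ V) := isCompact_Kpi.diff hV
  obtain ⟨m₀, hm₀, hm⟩ := exists_pos_lower hK' (f := rho Q) (continuous_rho Q).continuousOn
    (fun x hx => by
      by_contra hcon
      push Not at hcon
      have : x ∈ closure (Om Q) := by rw [closure_Om]; exact (mem_le Q x 0).2 hcon
      exact hx.2 (hcl this))
  set κ' : ℝ := min a1c (m₀ / 8) with hκ'
  have hκ0 : 0 < κ' := by positivity
  have hκ1 : κ' ≤ a1c := min_le_left _ _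
  have hκm : 4 * κ' < m₀ := by
    have : κ' ≤ m₀ / 8 := min_le_right _ _
    linarith
  obtain ⟨n, hn⟩ := exists_pow_lt_of_lt_one hκ0 (show (1 / 2 : ℝ) < 1 by norm_num)
  set J : Finset ℕ := Finset.range n with hJdef
  have hJ : ∀ a, κ' ≤ a → ∀ j ∉ J, aj (Q.γ j) j ≤ a := by
    intro a ha j hj
    have hj' : n ≤ j := by simpa [hJdef] using hj
    have h1 := aj_le (Q.γ_pos j) j
    have h2 : (1 / 2 : ℝ) ^ j ≤ (1 / 2) ^ n := pow_le_pow_of_le_one (by norm_num) (by norm_num) hj'
    have h3 : e3 ≤ 1 := by rw [e3]; norm_num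
    have h4 : 0 < (1 / 2 : ℝ) ^ j := by positivity
    nlinarith [e3_pos]
  have hmax : ∀ a, κ' ≤ a → a ≤ a1c → Ca Q J a ⊆ V → Ca Q J a ⊆ L := by
    intro a h1 h2 h3 x hx
    exact (hmemL x).2 ⟨h3 hx, fun f hf c hc => max_principle_Ca Q J (hκ0.trans_le h1) h2 (hJ a h1)
      hV (psh_norm hf hV) h3 hc x hx⟩
  refine ⟨J, ?_⟩
  set S : Set ℝ := {a | Ca Q J a ⊆ L} with hS
  have hmemS : ∀ a, a ∈ S ↔ Ca Q J a ⊆ L := fun a => Iff.rfl
  have hall : Set.Icc κ' a1c ⊆ S := by
    apply IsClosed.Icc_subset_of_forall_mem_nhdsWithin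
    · -- closedness
      rw [← closure_subset_iff_isClosed]
      intro a haS
      have haI : a ∈ Set.Icc κ' a1c := by
        have : closure (S ∩ Set.Icc κ' a1c) ⊆ Set.Icc κ' a1c :=
          closure_minimal Set.inter_subset_right isClosed_Icc
        exact this haS
      have ha0 : 0 < a := hκ0.trans_le haI.1
      refine ⟨(hmemS a).2 ?_, haI⟩
      have hstrict : ∀ x ∈ Kpi, 0 < Xi Q J a x → rho Q x < 2 * Xi Q J a x → x ∈ L := by
        intro x hx h1 h2
        have hcont := continuousAt_Xi Q J a (Kpi_log hx).1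
        have hcont' : ContinuousAt (fun b => Xi Q J b x) a :=
          ContinuousAt.comp (g := fun p : ℝ × E2 => Xi Q J p.1 p.2) (f := fun b : ℝ => (b, x))
            hcont (by fun_prop)
        have h3 : ∀ᶠ b in 𝓝 a, 0 < Xi Q J b x := hcont'.eventually (Ioi_mem_nhds h1)
        have h4 : ∀ᶠ b in 𝓝 a, rho Q x / 2 < Xi Q J b x :=
          hcont'.eventually (Ioi_mem_nhds (by linarith))
        have h5 := mem_closure_iff_frequently.1 haS
        obtain ⟨b, hb1, hb2, hb3⟩ := (h5.and_eventually (h3.and h4)).exists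
        exact hb1.1 (mem_Ca.2 (Or.inr ⟨hx, hb2.le, by linarith⟩))
      intro x hx
      rcases mem_Ca.1 hx with h | ⟨hxK, hX0, hr⟩
      · exact hclL h
      · rcases hX0.lt_or_eq with hX | hX
        · obtain ⟨e, he⟩ := push_in Q J ha0 haI.2 hxK hX hr
          have hc : Continuous fun t : ℝ => x + t • e := by fun_prop
          have hc0 : Tendsto (fun t : ℝ => x + t • e) (𝓝[>] 0) (𝓝 x) := by
            have h1 := hc.tendsto 0
            rw [zero_smul, add_zero] at h1
            exact h1.mono_left nhdsWithin_le_nhds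
          refine hLc.mem_of_tendsto hc0 ?_
          filter_upwards [he] with t ht
          exact hstrict _ ht.1 ht.2.1 ht.2.2
        · apply hclL
          rw [closure_Om]
          exact (mem_le Q x 0).2 (by linarith)
    · -- the start
      refine (hmemS κ').2 (hmax κ' le_rfl hκ1 ?_)
      intro x hx
      rcases mem_Ca.1 hx with h | ⟨hxK, hX0, hr⟩
      · exact hcl h
      · by_contra hxV
        have h1 := hm x ⟨hxK, hxV⟩
        obtain ⟨hx0, hxs⟩ := Kpi_log hxK
        have h2 := Xi_le' Q J hκ0 hx0 hxs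
        have hB := Bq_bounds (t := ‖x 1‖ ^ 2) (by positivity)
          (by have := hxK.2.2; nlinarith [norm_nonneg (x 1)])
        have hc1 := Real.cos_le_one (Real.log ‖x 0‖)
        have hc2 := Real.neg_one_le_cos (Real.log ‖x 0‖)
        have h3 : (1 + Real.cos (Real.log ‖x 0‖)) * Bq (‖x 1‖ ^ 2) ≤ 2 := by nlinarith
        have h4 : κ' * ((1 + Real.cos (Real.log ‖x 0‖)) * Bq (‖x 1‖ ^ 2) - 1 / 20) ≤ κ' * 2 := by
          gcongr; linarith
        linarith
    · -- openness
      rintro a ⟨haS, haI⟩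
      have haV : Ca Q J a ⊆ V := fun x hx => ((hmemL x).1 ((hmemS a).1 haS hx)).1
      have hev : ∀ᶠ b in 𝓝 a, ∀ y ∈ Kpi \ V, Xi Q J b y < 0 ∨ 2 * Xi Q J b y < rho Q y := by
        refine hK'.eventually_forall_of_forall_eventually fun y hy => ?_
        have hcont := continuousAt_Xi Q J a (Kpi_log hy.1).1
        have hnot : Xi Q J a y < 0 ∨ 2 * Xi Q J a y < rho Q y := by
          by_contra hcon
          push Not at hcon
          exact hy.2 (haV (mem_Ca.2 (Or.inr ⟨hy.1, hcon.1, hcon.2⟩)))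
        rcases hnot with h | h
        · filter_upwards [hcont.eventually (Iio_mem_nhds h)] with z hz
          exact Or.inl hz
        · have hcont2 : ContinuousAt (fun p : ℝ × E2 => rho Q p.2 - 2 * Xi Q J p.1 p.2) (a, y) :=
            ((continuous_rho Q).comp continuous_snd).continuousAt.sub (continuousAt_const.mul hcont)
          filter_upwards [hcont2.eventually (Ioi_mem_nhds (by simpa using h :
            (0:ℝ) < rho Q y - 2 * Xi Q J a y))] with z hz
          right
          have : 0 < rho Q z.2 - 2 * Xi Q J z.1 z.2 := hz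
          linarith
      have h1 : ∀ᶠ b in 𝓝[>] a, ∀ y ∈ Kpi \ V, Xi Q J b y < 0 ∨ 2 * Xi Q J b y < rho Q y :=
        nhdsWithin_le_nhds hev
      have h2 : ∀ᶠ b in 𝓝[>] a, b < a1c := nhdsWithin_le_nhds (Iio_mem_nhds haI.2)
      filter_upwards [h1, h2, self_mem_nhdsWithin] with b hb1 hb2 hb3
      have hb3' : a < b := hb3
      refine (hmemS b).2 (hmax b (haI.1.trans hb3'.le) hb2.le ?_)
      intro x hx
      rcases mem_Ca.1 hx with h | ⟨hxK, hX0, hr⟩
      · exact hcl h
      · by_contra hxV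
        rcases hb1 x ⟨hxK, hxV⟩ with h | h <;> linarith
  intro x hx
  exact ((hmemL x).1 ((hmemS a1c).1 (hall ⟨hκ1, le_rfl⟩) hx)).1


theorem no_hc (Q : Cheese) {V : Set E2} (hV : IsOpen V) (hcl : closure (Om Q) ⊆ V)
    (hVU : V ⊆ {x | rho Q x < a1c / 4})
    (hcomp : IsCompact {z | z ∈ V ∧ ∀ f : E2 → ℂ, DifferentiableOn ℂ f V → ∀ c : ℝ,
      (∀ w ∈ closure (Om Q), ‖f w‖ ≤ c) → ‖f z‖ ≤ c}) : False := by
  obtain ⟨J, hJ⟩ := all_in' Q hV hcl hcomp
  obtain ⟨h1, h2⟩ := point_in Q J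
  have h3 := hVU (hJ h1)
  exact absurd (h3 : rho Q _ < a1c / 4) (not_lt.2 h2)

end Pool.Agent.W731
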