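import Pool.Agent.H314.BK.FMain

set_option autoImplicit false

open MeasureTheory Complex Filter Topology
open scoped ContDiff InnerProductSpace ENNReal ComplexConjugate

namespace Pool.Agent.W731

open BK

variable {n : ℕ}

theorem km (Ω : Set (En n)) (ho : IsOpen Ω) (hb : Bornology.IsBounded Ω) (hP : PscC Ω) :
    KM1 Ω ∧ KM2 Ω := by
  have hS := JC3.pscS_of_pscC Ω ho hb hP
  have hWE : WE Ω := JB9.we Ω ho hb hS
  have hTI : TI Ω := JB2.ti Ω ho (JB1.ki Ω ho)
  have hDEN := JB3.den Ω ho hb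
  have hDK : DK Ω := JB7.lim Ω ho hb hWE (fun L ε φ ψ η hε hL hLΩ hW =>
    JB6.wd Ω ho hb L hL hLΩ ε hε φ ψ η hW (JB4.ap Ω ho hb hTI hDEN L hL hLΩ ε hε φ ψ η hW)
        (fun T S hTc hSc hTS g a b ha hb' hap =>
          BK.JB5.dual_abs T S hTc hSc hTS g a b ha hb' hap))
  exact JB8.km_of_dk Ω ho hDK

theorem leib (Ω : Set (En n)) (j : Fin n) (Z : L2 Ω →L[ℂ] L2 Ω)
    (hZ : ∀ f : L2 Ω, Z f =ᵐ[(volume : Measure (En n)).restrict Ω] fun x => conj (x j) * f x)
    (f : L2 Ω) (g : Form Ω) (hfg : IsDbar0 Ω f g) :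
    IsDbar0 Ω (Z f) (WithLp.toLp 2 (fun k => Z (g k) + if k = j then f else 0) : Form Ω) := by
  intro k φ hφ
  have h1 := hfg k _ (JC1.co_test_mul hφ j)
  have h2 : ∫ x in Ω, f x * dbar k (fun x => conj (x j) * φ x) x =
      (∫ x in Ω, Z f x * dbar k φ x) + ∫ x in Ω, f x * (if k = j then φ x else 0) := by
    rw [← integral_add]
    · apply integral_congr_ae
      filter_upwards [hZ f] with x hx
      rw [hx, JC1.co_prod hφ.smooth]
      ring
    · exact JC1.co_int _ (JC1.co_isTest_dbar hφ k)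
    · by_cases hkj : k = j
      · simp only [if_pos hkj]
        exact JC1.co_int _ hφ
      · simp only [if_neg hkj, mul_zero]
        exact integrable_zero _ _ _
  have h3 : ∫ x in Ω, g k x * (conj (x j) * φ x) = ∫ x in Ω, Z (g k) x * φ x := by
    apply integral_congr_ae
    filter_upwards [hZ (g k)] with x hx
    rw [hx]
    ring
  have h4 : ∫ x in Ω, ((Z (g k) + if k = j then f else 0 : L2 Ω) : En n → ℂ) x * φ x =
      (∫ x in Ω, Z (g k) x * φ x) + ∫ x in Ω, f x * (if k = j then φ x else 0) := by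
    rw [← integral_add]
    · apply integral_congr_ae
      by_cases hkj : k = j
      · simp only [if_pos hkj]
        filter_upwards [Lp.coeFn_add (Z (g k)) f] with x hx
        rw [hx, Pi.add_apply]
        ring
      · simp only [if_neg hkj, add_zero, mul_zero]
        exact Filter.EventuallyEq.rfl
    · exact JC1.co_int _ hφ
    · by_cases hkj : k = j
      · simp only [if_pos hkj]
        exact JC1.co_int _ hφ
      · simp only [if_neg hkj, mul_zero]
        exact integrable_zero _ _ _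
  show ∫ x in Ω, Z f x * dbar k φ x =
    - ∫ x in Ω, ((Z (g k) + if k = j then f else 0 : L2 Ω) : En n → ℂ) x * φ x
  rw [h4]
  rw [h2, h3] at h1
  linear_combination h1

/-- the basic estimate -/
theorem est (Ω : Set (En n)) (ho : IsOpen Ω) (hb : Bornology.IsBounded Ω) (hKM : KM1 Ω) {R : ℝ}
    (hR0 : 0 ≤ R) (hR : ∀ x ∈ Ω, ∀ j, ‖x j‖ ≤ R) (u : Form Ω) (f : L2 Ω) (hu : IsDbar1 Ω u 0)
    (hf : IsAdj0 Ω u f) : ‖u‖ ≤ 2 * n * R * ‖f‖ := by
  choose Z hZ using fun j => JC1.co_mulZ Ω ho hb j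
  have hZn : ∀ j (h : L2 Ω), ‖Z j h‖ ≤ R * ‖h‖ := by
    intro j h
    apply Lp.norm_le_mul_norm_of_ae_le_mul
    filter_upwards [hZ j h, ae_restrict_mem ho.measurableSet] with x hx hxΩ
    rw [hx, norm_mul, RCLike.norm_conj]
    exact mul_le_mul_of_nonneg_right (hR x hxΩ j) (norm_nonneg _)
  obtain ⟨α, hα, hle⟩ := hKM u f hu hf
  have hαn : ∀ j, ‖α j‖ ≤ ‖f‖ := by
    intro j
    have h1 : ‖α j‖ ^ 2 ≤ ‖f‖ ^ 2 := (Finset.single_le_sum (f := fun j => ‖α j‖ ^ 2)
      (fun i _ => sq_nonneg _) (Finset.mem_univ j)).trans hle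
    exact (pow_le_pow_iff_left₀ (norm_nonneg _) (norm_nonneg _) two_ne_zero).1 h1
  have hun : ∀ j, ‖u j‖ ≤ ‖u‖ := fun j => PiLp.norm_apply_le u j
  have key : ∀ j, ‖u j‖ ^ 2 ≤ 2 * R * ‖u‖ * ‖f‖ := by
    intro j
    set A : Form Ω := WithLp.toLp 2 (fun k => Z j (α j k)) with hA
    have hAn : ‖A‖ ≤ R * ‖α j‖ := by
      have h1 : ‖A‖ ^ 2 ≤ (R * ‖α j‖) ^ 2 := by
        rw [PiLp.norm_sq_eq_of_L2, mul_pow, PiLp.norm_sq_eq_of_L2, Finset.mul_sum]
        refine Finset.sum_le_sum fun k _ => ?_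
        rw [← mul_pow]
        exact pow_le_pow_left₀ (norm_nonneg _) (hZn j _) 2
      exact (pow_le_pow_iff_left₀ (norm_nonneg _) (by positivity) two_ne_zero).1 h1
    have h1 := hf _ _ (leib Ω j (Z j) (hZ j) (u j) (α j) (hα j))
    have h2 : inner ℂ (WithLp.toLp 2 (fun k => Z j (α j k) + if k = j then u j else 0) : Form Ω) u
        = inner ℂ A u + inner ℂ (u j) (u j) := by
      rw [PiLp.inner_apply, PiLp.inner_apply]
      have : ∀ k, inner ℂ ((WithLp.toLp 2 (fun k => Z j (α j k) + if k = j then u j else 0) :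
          Form Ω) k) (u k) = inner ℂ (A k) (u k) + if k = j then inner ℂ (u j) (u j) else 0 := by
        intro k
        show inner ℂ (Z j (α j k) + if k = j then u j else 0) (u k) = _
        rw [inner_add_left]
        by_cases hk : k = j
        · subst hk; simp [hA]
        · simp [hk, hA]
      rw [Finset.sum_congr rfl fun k _ => this k, Finset.sum_add_distrib]
      simp
    rw [h2] at h1
    have h3 : inner ℂ (u j) (u j) = inner ℂ (Z j (u j)) f - inner ℂ A u := by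
      rw [← h1]; ring
    have h4 : ‖u j‖ ^ 2 = ‖(inner ℂ (u j) (u j) : ℂ)‖ := by
      rw [inner_self_eq_norm_sq_to_K]
      simp
    rw [h4, h3]
    refine (norm_sub_le _ _).trans ?_
    have h5 : ‖inner ℂ (Z j (u j)) f‖ ≤ R * ‖u‖ * ‖f‖ := by
      refine (norm_inner_le_norm _ _).trans ?_
      have := (hZn j (u j)).trans (mul_le_mul_of_nonneg_left (hun j) hR0)
      exact mul_le_mul_of_nonneg_right this (norm_nonneg _)
    have h6 : ‖inner ℂ A u‖ ≤ R * ‖f‖ * ‖u‖ := by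
      refine (norm_inner_le_norm _ _).trans ?_
      have := hAn.trans (mul_le_mul_of_nonneg_left (hαn j) hR0)
      exact mul_le_mul_of_nonneg_right this (norm_nonneg _)
    linarith
  have hsum : ‖u‖ ^ 2 ≤ n * (2 * R * ‖u‖ * ‖f‖) := by
    rw [PiLp.norm_sq_eq_of_L2]
    refine (Finset.sum_le_sum fun j _ => key j).trans ?_
    simp
  rcases (norm_nonneg u).lt_or_eq with h | h
  · have : ‖u‖ * ‖u‖ ≤ (2 * n * R * ‖f‖) * ‖u‖ := by
      calc ‖u‖ * ‖u‖ = ‖u‖ ^ 2 := by ring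
        _ ≤ n * (2 * R * ‖u‖ * ‖f‖) := hsum
        _ = _ := by ring
    exact le_of_mul_le_mul_right this h
  · rw [← h]
    positivity

/-- `L²` existence theorem for `∂̄` on bounded pseudoconvex open sets -/
theorem l2ex (Ω : Set (En n)) (ho : IsOpen Ω) (hb : Bornology.IsBounded Ω) (hKM : KM1 Ω) {R : ℝ}
    (hR0 : 0 ≤ R) (hR : ∀ x ∈ Ω, ∀ j, ‖x j‖ ≤ R) (g : Form Ω) (hg : IsDbar1 Ω g 0) :
    ∃ f : L2 Ω, IsDbar0 Ω f g ∧ ‖f‖ ≤ 2 * n * R * ‖g‖ := by
  obtain ⟨T, hT, hTc⟩ := JC1.co_graph0 Ω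
  obtain ⟨S, hS, hSc⟩ := JC1.co_graph1 Ω
  let K : Submodule ℂ (Form Ω) := S.comap (LinearMap.inl ℂ (Form Ω) (Form2 Ω))
  have hKmem : ∀ v, v ∈ K ↔ (v, (0 : Form2 Ω)) ∈ S := fun v => Iff.rfl
  have hKc : IsClosed (K : Set (Form Ω)) := by
    have : Continuous (fun v : Form Ω => (v, (0 : Form2 Ω))) := by fun_prop
    exact hSc.preimage this
  have hKcomp : CompleteSpace K := hKc.completeSpace_coe
  let pr : Form Ω → Form Ω := fun v => K.starProjection v
  have hpr1 : ∀ v, pr v ∈ K := fun v => Submodule.starProjection_apply_mem K v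
  have hpr2 : ∀ v, ∀ u ∈ K, inner ℂ u (v - pr v) = 0 := by
    intro v u hu
    have := Submodule.sub_starProjection_mem_orthogonal (K := K) v
    exact (Submodule.mem_orthogonal K _).mp this u hu
  have hTS : ∀ f g, (f, g) ∈ T → g ∈ K := by
    intro f g hfg
    rw [hKmem, hS]
    exact JC1.co_dbar_dbar Ω f g ((hT _ _).1 hfg)
  have hadj0 : ∀ v, AdjR T (v - pr v) 0 := by
    intro v p hp
    rw [inner_zero_right]
    exact hpr2 v p.2 (hTS p.1 p.2 hp)
  let P' : Submodule ℂ (Form Ω × L2 Ω) :=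
    { carrier := {q | AdjR T q.1 q.2}
      add_mem' := by
        intro x y hx hy p hp
        show inner ℂ p.2 (x.1 + y.1) = inner ℂ p.1 (x.2 + y.2)
        rw [inner_add_right, inner_add_right, hx p hp, hy p hp]
      zero_mem' := by
        intro p hp
        show inner ℂ p.2 (0 : Form Ω) = inner ℂ p.1 (0 : L2 Ω)
        rw [inner_zero_right, inner_zero_right]
      smul_mem' := by
        intro c x hx p hp
        show inner ℂ p.2 (c • x.1) = inner ℂ p.1 (c • x.2)
        rw [inner_smul_right, inner_smul_right, hx p hp] }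
  have hgK : g ∈ K := by
    rw [hKmem, hS]; exact hg
  obtain ⟨f, hf1, hf2⟩ := JB5.riesz_rel P' g ((2 * n * R * ‖g‖) ^ 2) (by
    intro u f' huf
    have h0 : AdjR T u f' := huf
    have h1 : IsAdj0 Ω (pr u) f' := by
      intro h k hk
      have hk' : (h, k) ∈ T := (hT _ _).2 hk
      have e1 := h0 _ hk'
      have e2 := hadj0 u _ hk'
      rw [inner_sub_right, inner_zero_right, sub_eq_zero] at e2
      simp only at e1 e2
      rw [← e2, e1]
    have h2 := est Ω ho hb hKM hR0 hR (pr u) f' ((hS _ _).1 ((hKmem _).1 (hpr1 u))) h1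
    have h3 : inner ℂ u g = inner ℂ (pr u) g := by
      have e1 := hpr2 u g hgK
      have e2 : inner ℂ (u - pr u) g = 0 := by rw [← inner_conj_symm, e1, map_zero]
      rw [inner_sub_left, sub_eq_zero] at e2
      exact e2
    rw [h3, ← mul_pow]
    refine pow_le_pow_left₀ (norm_nonneg _) ?_ 2
    refine (norm_inner_le_norm _ _).trans ?_
    calc ‖pr u‖ * ‖g‖ ≤ (2 * n * R * ‖f'‖) * ‖g‖ := mul_le_mul_of_nonneg_right h2 (norm_nonneg _)
      _ = 2 * n * R * ‖g‖ * ‖f'‖ := by ring) (sq_nonneg _)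
  refine ⟨f, ?_, ?_⟩
  · rw [← hT]
    refine JB5.biadj' T hTc f g fun u f' huf => ?_
    exact (hf2 u f' huf).symm
  · exact (pow_le_pow_iff_left₀ (norm_nonneg _) (by positivity) two_ne_zero).1 hf1

end Pool.Agent.W731
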