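import Pool.Agent.Helper303.Lap2
import Pool.Agent.H314.BK.C2

set_option autoImplicit false

open Filter Topology Asymptotics
open scoped ContDiff

namespace Pool.Agent.W731

/-- Second order Taylor expansion. -/
theorem taylor2 {E : Type*} [NormedAddCommGroup E] [NormedSpace ℝ E] {f : E → ℝ} {x : E}
    (hf : ContDiffAt ℝ 2 f x) :
    (fun h => f (x + h) - f x - fderiv ℝ f x h - (1 / 2) * fderiv ℝ (fderiv ℝ f) x h h)
      =o[𝓝 0] fun h => ‖h‖ ^ 2 := by
  have hsym : IsSymmSndFDerivAt ℝ f x := hf.isSymmSndFDerivAt (by simp)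
  have hd1 : ∀ᶠ y in 𝓝 x, DifferentiableAt ℝ f y := by
    have := hf.eventually (by simp)
    filter_upwards [this] with y hy
    exact hy.differentiableAt (by simp)
  have hd2 : DifferentiableAt ℝ (fderiv ℝ f) x := by
    have h1 : ContDiffAt ℝ 1 (fderiv ℝ f) x := hf.fderiv_right (by norm_num)
    exact h1.differentiableAt (by simp)
  set B := fderiv ℝ (fderiv ℝ f) x with hB
  have hsm : ∀ h k, B h k = B k h := fun h k => hsym h k
  have hlo := hd2.hasFDerivAt.isLittleO
  rw [isLittleO_iff]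
  intro ε hε
  have h1 := hlo.bound hε
  rw [← hB] at h1
  have h2 := h1.and hd1
  rw [Metric.eventually_nhds_iff] at h2
  obtain ⟨δ, hδ, H⟩ := h2
  filter_upwards [Metric.ball_mem_nhds (0 : E) hδ] with h hh
  rw [mem_ball_zero_iff] at hh
  have hder : ∀ k ∈ Metric.closedBall (0 : E) ‖h‖,
      HasFDerivWithinAt (fun h => f (x + h) - f x - fderiv ℝ f x h - (1 / 2) * B h h)
        (fderiv ℝ f (x + k) - fderiv ℝ f x - B k) (Metric.closedBall (0 : E) ‖h‖) k := by
    intro k hk
    rw [mem_closedBall_zero_iff] at hk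
    have hk' : dist (x + k) x < δ := by
      rw [dist_eq_norm, add_sub_cancel_left]; linarith
    have e1 : HasFDerivAt (fun h => f (x + h)) (fderiv ℝ f (x + k)) k := by
      have h0 : HasFDerivAt f (fderiv ℝ f (x + k)) (x + id k) := (H hk').2.hasFDerivAt
      have := h0.comp k ((hasFDerivAt_id k).const_add x)
      rw [ContinuousLinearMap.comp_id] at this
      exact this
    have e2 : HasFDerivAt (fun h => B h h) (B k + B.flip k) k := by
      have := (B.hasFDerivAt (x := k)).clm_apply (hasFDerivAt_id k)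
      refine this.congr_fderiv ?_
      ext v
      simp
    have e3 := ((e1.sub_const (f x)).sub (fderiv ℝ f x).hasFDerivAt).sub (e2.const_mul (1 / 2))
    refine (e3.congr_fderiv ?_).hasFDerivWithinAt
    ext v
    simp only [sub_apply, smul_apply, add_apply,
      ContinuousLinearMap.flip_apply, smul_eq_mul]
    rw [hsm v k]
    ring
  have hbd : ∀ k ∈ Metric.closedBall (0 : E) ‖h‖, ‖fderiv ℝ f (x + k) - fderiv ℝ f x - B k‖ ≤
      ε * ‖h‖ := by
    intro k hk
    rw [mem_closedBall_zero_iff] at hk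
    have hk' : dist (x + k) x < δ := by
      rw [dist_eq_norm, add_sub_cancel_left]; linarith
    have := (H hk').1
    rw [add_sub_cancel_left] at this
    refine this.trans ?_
    gcongr
  have h3 := (convex_closedBall (0 : E) ‖h‖).norm_image_sub_le_of_norm_hasFDerivWithin_le hder hbd
    (Metric.mem_closedBall_self (norm_nonneg h)) (mem_closedBall_zero_iff.2 le_rfl)
  simp only [add_zero, sub_self, map_zero, mul_zero, sub_zero] at h3
  rw [Real.norm_of_nonneg (by positivity : (0:ℝ) ≤ ‖h‖ ^ 2)]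
  refine h3.trans (le_of_eq ?_)
  ring

open BK Pool.Agent.Helper303

variable {n : ℕ}

theorem Lv_eq_B {ρ : En n → ℝ} {x : En n} (hρ : ContDiffAt ℝ 2 ρ x) (a : En n) :
    Lv ρ x a = (1 / 4) * (fderiv ℝ (fderiv ℝ ρ) x a a +
      fderiv ℝ (fderiv ℝ ρ) x (Complex.I • a) (Complex.I • a)) := by
  have hd2 : DifferentiableAt ℝ (fderiv ℝ ρ) x := by
    have h1 : ContDiffAt ℝ 1 (fderiv ℝ ρ) x := hρ.fderiv_right (by norm_num)
    exact h1.differentiableAt (by simp)
  have key : ∀ v : En n, fderiv ℝ (fun y => fderiv ℝ ρ y v) x v =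
      fderiv ℝ (fderiv ℝ ρ) x v v := by
    intro v
    have h2 : HasFDerivAt (fun y => fderiv ℝ ρ y v)
        ((ContinuousLinearMap.apply ℝ ℝ v).comp (fderiv ℝ (fderiv ℝ ρ) x)) x :=
      (ContinuousLinearMap.apply ℝ ℝ v).hasFDerivAt.comp x hd2.hasFDerivAt
    rw [h2.fderiv]
    simp
  unfold Lv
  rw [key, key]

theorem csmul_eq (ζ : ℂ) (a : En n) : ζ • a = ζ.re • a + ζ.im • (Complex.I • a) := by
  funext j
  simp only [Pi.smul_apply, Pi.add_apply, smul_eq_mul, Complex.real_smul]
  conv_lhs => rw [← Complex.re_add_im ζ]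
  ring

/-- The Laplacian along a complex line. -/
theorem hasLap_line {ρ : En n → ℝ} {x : En n} (hρ : ContDiffAt ℝ 2 ρ x) (a : En n) :
    ∃ g : ℂ, HasLap (fun ζ : ℂ => ρ (x + ζ • a)) g (4 * Lv ρ x a) := by
  have hsym : IsSymmSndFDerivAt ℝ ρ x := hρ.isSymmSndFDerivAt (by simp)
  have hT := taylor2 hρ
  rw [Lv_eq_B hρ]
  set D := fderiv ℝ ρ x with hD
  set B := fderiv ℝ (fderiv ℝ ρ) x with hB
  have hsm : ∀ h k, B h k = B k h := fun h k => hsym h k
  refine ⟨(D a : ℂ) - Complex.I * (D (Complex.I • a) : ℝ),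
    (1 / 4 : ℂ) * ((B a a - B (Complex.I • a) (Complex.I • a) : ℝ) : ℂ) -
      (1 / 2 : ℂ) * (Complex.I * ((B (Complex.I • a) a : ℝ) : ℂ)), ?_⟩
  have hlim : Tendsto (fun ζ : ℂ => ζ • a) (𝓝 0) (𝓝 0) := by
    have : Continuous fun ζ : ℂ => ζ • a := by fun_prop
    simpa using this.tendsto 0
  have h1 := hT.comp_tendsto hlim
  have h2 : ((fun h : En n => ‖h‖ ^ 2) ∘ fun ζ : ℂ => ζ • a) =O[𝓝 0] fun ζ : ℂ => ‖ζ‖ ^ 2 := by
    refine IsBigO.of_bound (‖a‖ ^ 2) (Eventually.of_forall fun ζ => ?_)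
    simp only [Function.comp, norm_smul]
    rw [Real.norm_of_nonneg (by positivity), Real.norm_of_nonneg (by positivity)]
    exact le_of_eq (by ring)
  refine (h1.trans_isBigO h2).congr_left fun ζ => ?_
  simp only [Function.comp, zero_smul, add_zero]
  have e1 : D (ζ • a) = ζ.re * D a + ζ.im * D (Complex.I • a) := by
    rw [csmul_eq, map_add, map_smul, map_smul, smul_eq_mul, smul_eq_mul]
  have e2 : B (ζ • a) (ζ • a) = ζ.re ^ 2 * B a a + 2 * ζ.re * ζ.im * B (Complex.I • a) a +
      ζ.im ^ 2 * B (Complex.I • a) (Complex.I • a) := by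
    rw [csmul_eq]
    simp only [map_add, map_smul, add_apply, smul_apply, smul_eq_mul]
    rw [hsm a (Complex.I • a)]
    ring
  rw [e1, e2]
  have e3 : ‖ζ‖ ^ 2 = ζ.re ^ 2 + ζ.im ^ 2 := by
    rw [← Complex.normSq_eq_norm_sq, Complex.normSq_apply]; ring
  rw [e3]
  simp [pow_two]
  ring

/-- The Levi polynomial. -/
theorem levi_poly {ρ : En n → ℝ} {x : En n} (hρ : ContDiffAt ℝ 2 ρ x) {c : ℝ} (hc : 0 < c)
    (hL : ∀ a : En n, c * ‖a‖ ^ 2 ≤ Lv ρ x a) :
    ∃ P : En n → ℂ, Differentiable ℂ P ∧ ContDiff ℝ ∞ P ∧ P x = 0 ∧ ∃ r : ℝ, 0 < r ∧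
      ∀ z, ‖z - x‖ < r → ρ x + (P z).re + c / 2 * ‖z - x‖ ^ 2 ≤ ρ z := by
  have hsym : IsSymmSndFDerivAt ℝ ρ x := hρ.isSymmSndFDerivAt (by simp)
  have hT := taylor2 hρ
  have hLv := Lv_eq_B hρ
  set D := fderiv ℝ ρ x with hD
  set B := fderiv ℝ (fderiv ℝ ρ) x with hB
  have hsm : ∀ h k, B h k = B k h := fun h k => hsym h k
  set P0 : En n → ℂ := fun h => (D h : ℂ) - Complex.I * (D (Complex.I • h) : ℝ) +
    (1 / 4 : ℂ) * ((B h h - B (Complex.I • h) (Complex.I • h) : ℝ) : ℂ) -
      (1 / 2 : ℂ) * (Complex.I * ((B (Complex.I • h) h : ℝ) : ℂ)) with hP0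
  have hII : ∀ h : En n, Complex.I • (Complex.I • h) = -h := by
    intro h
    rw [smul_smul, Complex.I_mul_I, neg_one_smul]
  have hdif : Differentiable ℂ P0 := by
    intro h
    let J : En n →L[ℝ] En n := (Complex.I • ContinuousLinearMap.id ℂ (En n)).restrictScalars ℝ
    have hJ : ∀ k, J k = Complex.I • k := fun k => rfl
    let O : ℝ →L[ℝ] ℂ := Complex.ofRealCLM
    have hJd : ∀ k, HasFDerivAt (fun h : En n => Complex.I • h) J k := fun k => J.hasFDerivAt
    have d1 : HasFDerivAt (fun h => (D h : ℂ)) (O.comp D) h := (O.comp D).hasFDerivAt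
    have d2 : HasFDerivAt (fun h => ((D (Complex.I • h) : ℝ) : ℂ)) (O.comp (D.comp J)) h :=
      (O.comp (D.comp J)).hasFDerivAt
    have d3 : HasFDerivAt (fun h => B h h) (B h + B.flip h) h := by
      have := (B.hasFDerivAt (x := h)).clm_apply (hasFDerivAt_id h)
      refine this.congr_fderiv ?_
      ext v
      simp
    have d4 : HasFDerivAt (fun h => B (Complex.I • h) (Complex.I • h))
        ((B (J h)).comp J + (B.flip (J h)).comp J) h := by
      have := ((B.comp J).hasFDerivAt (x := h)).clm_apply (hJd h)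
      refine this.congr_fderiv ?_
      ext v
      simp [hJ]
    have d5 : HasFDerivAt (fun h => B (Complex.I • h) h)
        (B (J h) + (B.flip h).comp J) h := by
      have := ((B.comp J).hasFDerivAt (x := h)).clm_apply (hasFDerivAt_id h)
      refine this.congr_fderiv ?_
      ext v
      simp [hJ]
    have d34 : HasFDerivAt (fun h => ((B h h - B (Complex.I • h) (Complex.I • h) : ℝ) : ℂ)) _ h :=
      O.hasFDerivAt.comp h (d3.sub d4)
    have d5' : HasFDerivAt (fun h => ((B (Complex.I • h) h : ℝ) : ℂ)) _ h :=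
      O.hasFDerivAt.comp h d5
    have dd := ((d1.sub (d2.const_mul Complex.I)).add (d34.const_mul (1 / 4 : ℂ))).sub
      ((d5'.const_mul Complex.I).const_mul (1 / 2 : ℂ))
    refine BK.JC2.diffAt_of_dbar P0 h dd.differentiableAt ?_
    intro j
    unfold dbar
    have hfd : fderiv ℝ P0 h = _ := dd.fderiv
    rw [hfd]
    have hs : ∀ t : ℂ, (Pi.single j (Complex.I * t) : En n) = Complex.I • (Pi.single j t : En n) := by
      intro t
      rw [← smul_eq_mul, Pi.single_smul]
    have hI : (Pi.single j Complex.I : En n) = Complex.I • (Pi.single j 1 : En n) := by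
      rw [← hs, mul_one]
    rw [hI]
    set v : En n := Pi.single j 1
    simp only [sub_apply, smul_apply, add_apply, ContinuousLinearMap.comp_apply,
      ContinuousLinearMap.flip_apply, smul_eq_mul, hJ, hII, map_neg, O,
      Complex.ofRealCLM_apply]
    rw [hsm v h, hsm (Complex.I • v) h, hsm (Complex.I • v) (Complex.I • h),
      hsm v (Complex.I • h)]
    push_cast
    linear_combination ((D v : ℂ) / 2 + (B h v : ℂ) / 4 -
      (B (Complex.I • h) (Complex.I • v) : ℂ) / 4) * Complex.I_sq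
  have hsm' : ContDiff ℝ ∞ P0 := by
    have hJ : ContDiff ℝ ∞ (fun h : En n => Complex.I • h) := contDiff_const_smul _
    have hO : ContDiff ℝ ∞ (fun t : ℝ => (t : ℂ)) := Complex.ofRealCLM.contDiff
    have c1 : ContDiff ℝ ∞ (fun h : En n => B h h) := B.contDiff.clm_apply contDiff_id
    have c2 : ContDiff ℝ ∞ (fun h : En n => B (Complex.I • h) (Complex.I • h)) := c1.comp hJ
    have c3 : ContDiff ℝ ∞ (fun h : En n => B (Complex.I • h) h) :=
      (B.contDiff.comp hJ).clm_apply contDiff_id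
    exact (((hO.comp D.contDiff).sub (contDiff_const.mul (hO.comp (D.contDiff.comp hJ)))).add
      (contDiff_const.mul (hO.comp (c1.sub c2)))).sub
      (contDiff_const.mul (contDiff_const.mul (hO.comp c3)))
  refine ⟨fun z => P0 (z - x), hdif.comp (differentiable_id.sub_const x),
    hsm'.comp (contDiff_id.sub contDiff_const), ?_, ?_⟩
  · simp [hP0]
  · have h1 := hT.bound (half_pos hc)
    rw [Metric.eventually_nhds_iff] at h1
    obtain ⟨r, hr, H⟩ := h1
    refine ⟨r, hr, fun z hz => ?_⟩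
    have h2 := H (y := z - x) (by rwa [dist_zero_right])
    rw [add_sub_cancel, Real.norm_of_nonneg (by positivity : (0:ℝ) ≤ ‖z - x‖ ^ 2)] at h2
    have h3 := (abs_le.1 h2).1
    have h4 := hL (z - x)
    rw [hLv] at h4
    have h5 : (P0 (z - x)).re = D (z - x) + (1 / 4) * (B (z - x) (z - x) -
        B (Complex.I • (z - x)) (Complex.I • (z - x))) := by
      simp [hP0]
    rw [h5]
    linarith

end Pool.Agent.W731
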